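import Pool.Agent.H15.Exact.QP

/-!
# Project EXACT, one-arm formula: pushforwards and bilinear forms
-/

set_option autoImplicit false

open Finset

namespace Pool.Agent.H15.Exact

open H56.EX
open scoped Classical

section push

variable {α β γ : Type} [Fintype α] [Fintype β] [Fintype γ]

omit [Fintype β] [Fintype γ] in
/-- pushforward of a weight function -/
noncomputable def push (f : α → β) : (α → ℂ) →ₗ[ℂ] (β → ℂ) where
  toFun v := fun b => ∑ a, if f a = b then v a else 0
  map_add' u v := by
    funext b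
    simp only [Pi.add_apply, ← sum_add_distrib]
    refine sum_congr rfl fun a _ => ?_
    split_ifs <;> simp
  map_smul' c v := by
    funext b
    simp only [Pi.smul_apply, smul_eq_mul, RingHom.id_apply, mul_sum]
    refine sum_congr rfl fun a _ => ?_
    split_ifs <;> simp

omit [Fintype β] in
theorem push_apply (f : α → β) (v : α → ℂ) (b : β) :
    push f v b = ∑ a, if f a = b then v a else 0 := rfl

theorem sum_push (f : α → β) (v : α → ℂ) (w : β → ℂ) :
    ∑ b, w b * push f v b = ∑ a, w (f a) * v a := by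
  simp only [push_apply, mul_sum]
  rw [sum_comm]
  refine sum_congr rfl fun a _ => ?_
  rw [sum_eq_single (f a)]
  · simp
  · intro b _ hb
    rw [if_neg (fun h => hb h.symm), mul_zero]
  · intro h
    exact absurd (mem_univ _) h

theorem push_push (f : α → β) (g : β → γ) (v : α → ℂ) :
    push g (push f v) = push (fun a => g (f a)) v := by
  funext c
  have h := sum_push f v (fun b => if g b = c then 1 else 0)
  rw [push_apply, push_apply]
  have e1 : ∀ b : β, (if g b = c then push f v b else 0) =
      (if g b = c then (1 : ℂ) else 0) * push f v b := by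
    intro b
    split_ifs <;> simp
  have e2 : ∀ a : α, (if g (f a) = c then v a else 0) =
      (if g (f a) = c then (1 : ℂ) else 0) * v a := by
    intro a
    split_ifs <;> simp
  rw [sum_congr rfl (fun b _ => e1 b), sum_congr rfl (fun a _ => e2 a)]
  exact h

/-- The bilinear form with kernel `W`. -/
noncomputable def bf (W : α → β → ℂ) : (α → ℂ) →ₗ[ℂ] (β → ℂ) →ₗ[ℂ] ℂ :=
  LinearMap.mk₂ ℂ (fun u v => ∑ a, ∑ b, W a b * (u a * v b))
    (fun u u' v => by
      simp only [Pi.add_apply, ← sum_add_distrib]
      exact sum_congr rfl fun a _ => sum_congr rfl fun b _ => by ring)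
    (fun c u v => by
      simp only [Pi.smul_apply, smul_eq_mul, mul_sum]
      exact sum_congr rfl fun a _ => sum_congr rfl fun b _ => by ring)
    (fun u v v' => by
      simp only [Pi.add_apply, ← sum_add_distrib]
      exact sum_congr rfl fun a _ => sum_congr rfl fun b _ => by ring)
    (fun c u v => by
      simp only [Pi.smul_apply, smul_eq_mul, mul_sum]
      exact sum_congr rfl fun a _ => sum_congr rfl fun b _ => by ring)

theorem bf_apply (W : α → β → ℂ) (u : α → ℂ) (v : β → ℂ) :
    bf W u v = ∑ a, ∑ b, W a b * (u a * v b) := rfl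

theorem bf_push_left (W : β → γ → ℂ) (f : α → β) (u : α → ℂ) (v : γ → ℂ) :
    bf W (push f u) v = bf (fun a c => W (f a) c) u v := by
  have h := sum_push f u (fun b => ∑ c, W b c * v c)
  rw [bf_apply, bf_apply]
  calc ∑ b, ∑ c, W b c * (push f u b * v c) = ∑ b, (∑ c, W b c * v c) * push f u b := by
        refine sum_congr rfl fun b _ => ?_
        rw [sum_mul]
        exact sum_congr rfl fun c _ => by ring
    _ = ∑ a, (∑ c, W (f a) c * v c) * u a := h
    _ = _ := by
        refine sum_congr rfl fun b _ => ?_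
        rw [sum_mul]
        exact sum_congr rfl fun c _ => by ring

theorem bf_push_right (W : γ → β → ℂ) (f : α → β) (u : γ → ℂ) (v : α → ℂ) :
    bf W u (push f v) = bf (fun c a => W c (f a)) u v := by
  rw [bf_apply, bf_apply]
  refine sum_congr rfl fun c _ => ?_
  have h := sum_push f v (fun b => W c b * u c)
  calc ∑ b, W c b * (u c * push f v b) = ∑ b, (W c b * u c) * push f v b :=
        sum_congr rfl fun c _ => by ring
    _ = ∑ a, (W c (f a) * u c) * v a := h
    _ = _ := sum_congr rfl fun c _ => by ring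

end push

section pat

variable {L : ℕ}

/-- `e_i` as a linear map -/
noncomputable def eL (L : ℕ) (i : ℤ) : (Pat L → ℂ) →ₗ[ℂ] (Pat L → ℂ) := push (E i)

theorem eL_eq (i : ℤ) (v : Pat L → ℂ) : eL L i v = eop i v := by
  funext P
  unfold eL eop
  rw [push_apply]

theorem eL_idem (i : ℤ) (v : Pat L → ℂ) : eL L i (eL L i v) = eL L i v := by
  unfold eL
  rw [push_push]
  congr 2
  funext P
  exact E.idem P i

theorem bf_eL {W : Pat L → Pat L → ℂ} {i : ℤ} (h : ∀ P Q, W (E i P) Q = W P (E i Q))
    (u v : Pat L → ℂ) : bf W (eL L i u) v = bf W u (eL L i v) := by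
  unfold eL
  rw [bf_push_left, bf_push_right]
  have : (fun a c => W (E i a) c) = (fun c a => W c (E i a)) := by
    funext P Q
    exact h P Q
  rw [this]

theorem rot_ins (i : ℤ) (P : Pat L) : rot (ins i P) = ins (i + 1) (rot P) := by
  have hL : 1 ≤ L := le_trans (by norm_num) P.two_le
  apply Pat.ext
  funext x
  rcases pos_cases hL (i + 1) x with h | h | ⟨y, rfl⟩
  · rw [ins_i (i + 1) _ h, rot_m, ins_i i P]
    · ring
    · have := Cg.sub 1 h
      simpa using this
  · rw [ins_succ (i + 1) _ h, rot_m, ins_succ i P]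
    · ring
    · have := Cg.sub 1 h
      simpa using this
  · have e1 : ∀ y, phi L (i + 1) y = phi L i (y - 1) + 1 := by
      intro y
      unfold phi
      rw [show y - (i + 1) = y - 1 - i by ring]
      ring
    rw [ins_phi, rot_m, rot_m, e1, e1, add_sub_cancel_right, ins_phi, add_sub_cancel_right]

/-- pushforward under the inverse rotation -/
noncomputable def rI (L : ℕ) : (Pat L → ℂ) →ₗ[ℂ] (Pat L → ℂ) := push unrot

theorem rot_unrot (P : Pat L) : rot (unrot P) = P := (rotEquiv L).right_inv P

theorem unrot_rot (P : Pat L) : unrot (rot P) = P := (rotEquiv L).left_inv P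

theorem rI_apply (v : Pat L → ℂ) (P : Pat L) : rI L v P = v (rot P) := by
  unfold rI
  rw [push_apply, sum_eq_single (rot P)]
  · rw [if_pos (unrot_rot P)]
  · intro Q _ hQ
    rw [if_neg]
    intro h
    apply hQ
    rw [← h, rot_unrot]
  · intro h
    exact absurd (mem_univ _) h

theorem unrot_ins (P : Pat L) : unrot (ins 0 P) = ins (-1) (unrot P) := by
  have h := rot_ins (-1) (unrot P)
  rw [rot_unrot] at h
  have h2 := congrArg unrot h
  rw [unrot_rot] at h2
  rw [h2]
  norm_num

/-- insertion of a small arc at the strands `0, 1` -/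
noncomputable def i0 (L : ℕ) : (Pat L → ℂ) →ₗ[ℂ] (Pat (L + 2) → ℂ) := push (ins 0)

theorem i0_ins (v : Pat L → ℂ) (Q : Pat L) : i0 L v (ins 0 Q) = v Q := by
  unfold i0
  rw [push_apply, sum_eq_single Q]
  · rw [if_pos rfl]
  · intro Q' _ hQ'
    rw [if_neg]
    intro h
    exact hQ' (ins_injective 0 h)
  · intro h
    exact absurd (mem_univ _) h

theorem i0_of_ne (v : Pat L → ℂ) {P : Pat (L + 2)} (hP : P.m 0 ≠ 1) : i0 L v P = 0 := by
  unfold i0
  rw [push_apply]
  refine sum_eq_zero fun Q _ => ?_
  rw [if_neg]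
  rintro rfl
  apply hP
  rw [ins_self]
  norm_num

theorem eL_i0 (v : Pat L → ℂ) : eL (L + 2) 0 (i0 L v) = i0 L v := by
  unfold eL i0
  rw [push_push]
  congr 2
  funext P
  exact E.eq_self _ _ (ins_self 0 P)

variable {τ : ℂ} {W : ∀ L : ℕ, Pat L → Pat L → ℂ}

theorem bf_i0 (hW : FormProps τ W) (u v : Pat L → ℂ) :
    bf (W (L + 2)) (i0 L u) (i0 L v) = bf (W L) u v := by
  unfold i0
  rw [bf_push_left, bf_push_right]
  have : (fun c a => W (L + 2) (ins 0 c) (ins 0 a)) = W L := by
    funext P Q
    exact hW.ins0 L P Q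
  rw [this]

theorem bf_rI_i0 (hW : FormProps τ W) (u v : Pat L → ℂ) :
    bf (W (L + 2)) (rI (L + 2) (i0 L u)) (rI (L + 2) (i0 L v)) = τ * bf (W L) u v := by
  unfold i0 rI
  rw [push_push, push_push, bf_push_left, bf_push_right, bf_apply, bf_apply, mul_sum]
  refine sum_congr rfl fun P _ => ?_
  rw [mul_sum]
  refine sum_congr rfl fun Q _ => ?_
  rw [unrot_ins, unrot_ins, hW.insm, rot_unrot, rot_unrot]
  ring

end pat

end Pool.Agent.H15.Exact
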