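import Pool.Agent.H15.Exact.Rel
import Mathlib.Algebra.Polynomial.Bivariate

/-!
# Project EXACT, one-arm formula: polynomials in two variables

The outer variable is `x` and the inner variable is `y`.
-/

set_option autoImplicit false

open Finset

namespace Pool.Agent.H15.Exact

open H56.EX
open scoped Classical

/-- polynomials in `x` (outer) and `y` (inner) -/
abbrev BV := Polynomial (Polynomial ℂ)

/-- evaluation of the outer variable at `x` and the inner variable at `y` -/
noncomputable def ev (x y : ℂ) : BV →+* ℂ := Polynomial.evalEvalRingHom y x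

theorem ev_eq (x y : ℂ) (F : BV) : ev x y F = F.evalEval y x := rfl

theorem ev_X (x y : ℂ) : ev x y Polynomial.X = x := Polynomial.evalEval_X y x

theorem ev_CX (x y : ℂ) : ev x y (Polynomial.C Polynomial.X) = y := by
  rw [ev_eq, Polynomial.evalEval_C, Polynomial.eval_X]

theorem ev_CC (x y a : ℂ) : ev x y (Polynomial.C (Polynomial.C a)) = a := by
  rw [ev_eq, Polynomial.evalEval_C, Polynomial.eval_C]

theorem ev_map (x y : ℂ) (F : BV) :
    ev x y F = (F.map (Polynomial.evalRingHom y)).eval x := by
  rw [ev_eq, Polynomial.map_evalRingHom_eval]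

theorem bv_zero {F : BV} (h : ∀ x y, ev x y F = 0) : F = 0 := by
  ext a b
  have h1 : ∀ y, F.map (Polynomial.evalRingHom y) = 0 := by
    intro y
    apply Polynomial.funext
    intro x
    rw [← ev_map, h]
    simp
  have h2 : F.coeff a = 0 := by
    apply Polynomial.funext
    intro y
    have := congrArg (fun p => Polynomial.coeff p a) (h1 y)
    simpa [Polynomial.coeff_map] using this
  rw [h2]
  simp

theorem bv_ext {F G : BV} (h : ∀ x y, ev x y F = ev x y G) : F = G := by
  have : F - G = 0 := bv_zero (fun x y => by rw [map_sub, h, sub_self])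
  exact sub_eq_zero.mp this

/-- coefficient of `x ^ a * y ^ b` -/
noncomputable def cf (a b : ℕ) (F : BV) : ℂ := (F.coeff a).coeff b

theorem cf_add (a b : ℕ) (F G : BV) : cf a b (F + G) = cf a b F + cf a b G := by
  unfold cf
  rw [Polynomial.coeff_add, Polynomial.coeff_add]

theorem cf_sub (a b : ℕ) (F G : BV) : cf a b (F - G) = cf a b F - cf a b G := by
  unfold cf
  rw [Polynomial.coeff_sub, Polynomial.coeff_sub]

theorem cf_zero (a b : ℕ) : cf a b 0 = 0 := by
  unfold cf
  simp

theorem cf_sum {ι : Type} (a b : ℕ) (s : Finset ι) (F : ι → BV) :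
    cf a b (∑ i ∈ s, F i) = ∑ i ∈ s, cf a b (F i) := by
  unfold cf
  rw [Polynomial.finsetSum_coeff, Polynomial.finsetSum_coeff]

theorem cf_CC (a b : ℕ) (c : ℂ) (F : BV) :
    cf a b (Polynomial.C (Polynomial.C c) * F) = c * cf a b F := by
  unfold cf
  rw [Polynomial.coeff_C_mul, Polynomial.coeff_C_mul]

theorem cf_X (a b : ℕ) (F : BV) : cf (a + 1) b (Polynomial.X * F) = cf a b F := by
  unfold cf
  rw [Polynomial.coeff_X_mul]

theorem swap_ev (x y : ℂ) (F : BV) : ev x y (Polynomial.Bivariate.swap F) = ev y x F := by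
  induction F using Polynomial.induction_on' with
  | add p r hp hr => rw [map_add, map_add, map_add, hp, hr]
  | monomial n f =>
    induction f using Polynomial.induction_on' with
    | add p r hp hr =>
      rw [map_add, map_add, map_add, map_add, hp, hr]
    | monomial m c =>
      rw [Polynomial.Bivariate.swap_monomial_monomial]
      rw [ev_eq, ev_eq, Polynomial.evalEval, Polynomial.evalEval, Polynomial.eval_monomial,
        Polynomial.eval_monomial]
      simp [Polynomial.eval_monomial]
      ring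

theorem swap_cf (a b : ℕ) (F : BV) : cf a b (Polynomial.Bivariate.swap F) = cf b a F := by
  induction F using Polynomial.induction_on' with
  | add p r hp hr => rw [map_add, cf_add, cf_add, hp, hr]
  | monomial n f =>
    induction f using Polynomial.induction_on' with
    | add p r hp hr =>
      rw [map_add, map_add, cf_add, cf_add, hp, hr]
    | monomial m c =>
      rw [Polynomial.Bivariate.swap_monomial_monomial]
      unfold cf
      rw [Polynomial.coeff_monomial, Polynomial.coeff_monomial]
      by_cases h1 : m = a <;> by_cases h2 : n = b <;>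
        simp [h1, h2, Polynomial.coeff_monomial]

theorem outer_deg {F : BV} {d : ℕ}
    (h : ∀ y, ∃ p : Polynomial ℂ, p.natDegree ≤ d ∧ ∀ x, ev x y F = p.eval x) :
    F.natDegree ≤ d := by
  rw [Polynomial.natDegree_le_iff_coeff_eq_zero]
  intro N hN
  apply Polynomial.funext
  intro y
  obtain ⟨p, hp, he⟩ := h y
  have h1 : F.map (Polynomial.evalRingHom y) = p := by
    apply Polynomial.funext
    intro x
    rw [← ev_map, he]
  have := congrArg (fun r => Polynomial.coeff r N) h1
  simp only [Polynomial.coeff_map] at this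
  rw [Polynomial.coeff_eq_zero_of_natDegree_lt (lt_of_le_of_lt hp hN)] at this
  simpa using this

theorem inner_deg {F : BV} {d : ℕ}
    (h : ∀ x, ∃ p : Polynomial ℂ, p.natDegree ≤ d ∧ ∀ y, ev x y F = p.eval y) (a : ℕ) :
    (F.coeff a).natDegree ≤ d := by
  have h1 : (Polynomial.Bivariate.swap F).natDegree ≤ d := by
    apply outer_deg
    intro y
    obtain ⟨p, hp, he⟩ := h y
    exact ⟨p, hp, fun x => by rw [swap_ev, he]⟩
  rw [Polynomial.natDegree_le_iff_coeff_eq_zero]
  intro N hN
  have h2 := swap_cf N a F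
  unfold cf at h2
  rw [← h2, Polynomial.coeff_eq_zero_of_natDegree_lt (lt_of_le_of_lt h1 hN)]
  simp

section vec

variable {L : ℕ}

/-- coefficient vectors -/
noncomputable def cfv (a b : ℕ) (F : Pat L → BV) : Pat L → ℂ := fun P => cf a b (F P)

/-- `e_i` on polynomial vectors -/
noncomputable def eB (i : ℤ) (F : Pat L → BV) (P : Pat L) : BV :=
  ∑ P' : Pat L, if E i P' = P then F P' else 0

theorem ev_eB (i : ℤ) (F : Pat L → BV) (P : Pat L) (x y : ℂ) :
    ev x y (eB i F P) = eL L i (fun P' => ev x y (F P')) P := by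
  unfold eB eL
  rw [push_apply, map_sum]
  refine sum_congr rfl fun P' _ => ?_
  split_ifs
  · rfl
  · exact map_zero _

theorem cf_eB (i : ℤ) (F : Pat L → BV) (P : Pat L) (a b : ℕ) :
    cf a b (eB i F P) = eL L i (cfv a b F) P := by
  unfold eB eL
  rw [push_apply, cf_sum]
  refine sum_congr rfl fun P' _ => ?_
  split_ifs
  · rfl
  · exact cf_zero a b

/-- the inverse of the exchange of a strand with parameter `∞`: the strand moves to the left -/
noncomputable def tb (κ : ℂ) (L : ℕ) (i : ℤ) : (Pat L → ℂ) →ₗ[ℂ] (Pat L → ℂ) :=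
  -(κ • LinearMap.id + κ ^ 2 • eL L i)

theorem tb_apply (κ : ℂ) (i : ℤ) (v : Pat L → ℂ) :
    tb κ L i v = -(κ • v + κ ^ 2 • eL L i v) := rfl

/-- moving the strand with the outer parameter one step to the left -/
theorem move {κ : ℂ} (hκ : κ ^ 3 = 1) {F F' : Pat L → BV} {w : ℂ} {n : ℤ}
    (hex : ∀ (P : Pat L) (x y : ℂ), (κ * x - κ ^ 2 * w) * ev x y (F' P) =
      (κ * w - κ ^ 2 * x) * ev x y (F P) + (w - x) * eL L n (fun P' => ev x y (F P')) P)
    {a b : ℕ} (h0 : cfv (a + 1) b F = 0) (h0' : cfv (a + 1) b F' = 0) :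
    cfv a b F' = tb κ L n (cfv a b F) := by
  funext P
  have h1 : Polynomial.X * (Polynomial.C (Polynomial.C κ) * F' P) -
      Polynomial.C (Polynomial.C (κ ^ 2 * w)) * F' P =
      Polynomial.C (Polynomial.C (κ * w)) * F P -
        Polynomial.X * (Polynomial.C (Polynomial.C (κ ^ 2)) * F P) +
        (Polynomial.C (Polynomial.C w) * eB n F P - Polynomial.X * eB n F P) := by
    apply bv_ext
    intro x y
    simp only [map_sub, map_add, map_mul, ev_X]
    simp only [← map_mul, ← map_pow, ev_CC, ev_eB]
    have := hex P x y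
    linear_combination this
  have h2 := congrArg (cf (a + 1) b) h1
  simp only [cf_add, cf_sub, cf_X, cf_CC, cf_eB] at h2
  have h3 : cf (a + 1) b (F P) = 0 := congrFun h0 P
  have h4 : cf (a + 1) b (F' P) = 0 := congrFun h0' P
  have h5 : eL L n (cfv (a + 1) b F) P = 0 := by
    rw [h0, map_zero]
    rfl
  rw [h3, h4, h5] at h2
  rw [tb_apply]
  simp only [Pi.neg_apply, Pi.add_apply, Pi.smul_apply, smul_eq_mul]
  change cf a b (F' P) = -(κ * cf a b (F P) + κ ^ 2 * eL L n (cfv a b F) P)
  linear_combination κ ^ 2 * h2 - (cf a b (F' P) + κ * cf a b (F P)) * hκ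

end vec

section FB

variable {κ : ℂ} {Φ : ∀ L : ℕ, Pat L → (ℕ → ℂ) → ℂ}

/-- the components as polynomials in two variables -/
noncomputable def QP.FB (h : QP κ Φ) (L : ℕ) (s : ℕ → BV) (P : Pat L) : BV :=
  MvPolynomial.eval₂ ((Polynomial.C).comp Polynomial.C) (fun k : Fin L => s k)
    (Classical.choose (h.mv L P))

theorem QP.ev_FB (h : QP κ Φ) (L : ℕ) (s : ℕ → BV) (P : Pat L) (x y : ℂ) :
    ev x y (h.FB L s P) = Φ L P (fun n => ev x y (s n)) := by
  unfold QP.FB
  rw [MvPolynomial.eval₂_comp_left, Classical.choose_spec (h.mv L P)]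
  have e1 : (ev x y).comp ((Polynomial.C).comp Polynomial.C) = RingHom.id ℂ := by
    ext a
    exact ev_CC x y a
  rw [e1]
  rfl

theorem QP.congr (h : QP κ Φ) {L : ℕ} (P : Pat L) {s s' : ℕ → ℂ} (hs : ∀ n, n < L → s n = s' n) :
    Φ L P s = Φ L P s' := by
  obtain ⟨p, hp⟩ := h.mv L P
  rw [hp, hp]
  congr 2
  funext k
  exact hs k k.2

end FB

end Pool.Agent.H15.Exact
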