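import Pool.Agent.H15.Exact.Form
import Pool.Agent.H56.EX.Param

/-!
# Project EXACT, one-arm formula: the qKZ solution and its complex conjugate

`QP κ Φ` lists the properties of the polynomial qKZ solution with the cube root of unity `κ` in
terms of sequences of parameters.
-/

set_option autoImplicit false

open Finset

namespace Pool.Agent.H15.Exact

open H56.EX

/-- The properties of the polynomial qKZ solution with the cube root of unity `κ`, in terms of
sequences of parameters. -/
structure QP (κ : ℂ) (Φ : ∀ L : ℕ, Pat L → (ℕ → ℂ) → ℂ) : Prop where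
  kk : κ ^ 2 + κ + 1 = 0
  mv : ∀ (L : ℕ) (P : Pat L), ∃ p : MvPolynomial (Fin L) ℂ, ∀ s : ℕ → ℂ,
    Φ L P s = MvPolynomial.eval (fun k : Fin L => s k) p
  poly : ∀ (L : ℕ) (P : Pat L) (s : ℕ → ℂ) (n : ℕ), n < L →
    ∃ p : Polynomial ℂ, p.natDegree ≤ L - 1 ∧ ∀ t, Φ L P (Function.update s n t) = p.eval t
  exch : ∀ (L : ℕ) (P : Pat L) (s : ℕ → ℂ) (n : ℕ), n + 1 < L →
    (κ * s (n + 1) - κ ^ 2 * s n) * Φ L P (s ∘ Equiv.swap n (n + 1)) =
      (κ * s n - κ ^ 2 * s (n + 1)) * Φ L P s +
        (s n - s (n + 1)) * eop n (fun P' => Φ L P' s) P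
  rot : ∀ (L : ℕ) (P : Pat L) (s : ℕ → ℂ), Φ L (rot P) (scons (s (L - 1)) s) = Φ L P s
  arc_zero : ∀ (L : ℕ) (P : Pat L) (s : ℕ → ℂ), s 0 = κ ^ 2 * s 1 → P.m 0 ≠ 1 → Φ L P s = 0
  arc : ∀ (L : ℕ) (P : Pat L) (w : ℂ) (z : ℕ → ℂ),
    Φ (L + 2) (ins 0 P) (scons (κ ^ 2 * w) (scons w z)) =
      (-κ * w * (∏ j ∈ Finset.range L, (z j - κ * w) ^ 2) / 3 ^ L) * Φ L P z
  two_base : ∀ (P : Pat 2) (s : ℕ → ℂ), P.m 0 = -1 →
    Φ 2 P s = (κ * s 1 - κ ^ 2 * s 0) / (κ - κ ^ 2)
  two_other : ∀ (P : Pat 2) (s : ℕ → ℂ), P.m 0 = 1 →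
    Φ 2 P s = (κ * s 0 - κ ^ 2 * s 1) / (κ - κ ^ 2)

theorem m_neg_one_of {P : Pat 2} (h : P.m 0 = -1) : P.m (-1) = 0 := by
  rw [← h, P.inv]

theorem qp_of_psi {Ψ : ∀ L : ℕ, Pat L → (ℤ → ℂ) → ℂ} (hΨ : PsiProps Ψ) :
    QP q (fun L P s => Ψ L P (par L s)) := by
  have hbase : ∀ (P : Pat 2) (s : ℕ → ℂ), P.m 0 = -1 →
      Ψ 2 P (par 2 s) = (q * s 1 - q ^ 2 * s 0) / (q - q ^ 2) := by
    intro P s h
    have hb : IsBase P := by
      intro x h1 h2
      have hx : x = -1 ∨ x = 0 := by push_cast at h1 h2; omega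
      rcases hx with rfl | rfl
      · rw [m_neg_one_of h]; norm_num
      · rw [h]; norm_num
    rw [hΨ.base 2 P _ hb]
    have e0 : par 2 s ((0 : ℕ) : ℤ) = s 0 := par_nat s (by norm_num)
    have e1 : par 2 s ((1 : ℕ) : ℤ) = s 1 := par_nat s (by norm_num)
    simp only [prod_range_succ, prod_range_zero, one_mul, e0, e1, q_inv]
  refine ⟨by linear_combination q_sq, ?_, ?_, ?_, ?_, ?_, ?_, hbase, ?_⟩
  · intro L P
    obtain ⟨p, hp⟩ := hΨ.mv L P
    refine ⟨p, fun s => ?_⟩
    rw [hp]
    congr 2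
    funext k
    exact par_nat s k.2
  · intro L P s n hn
    obtain ⟨p, hp, he⟩ := hΨ.poly L P (par L s) (per_par L s) n
    refine ⟨p, hp, fun t => ?_⟩
    rw [← he t, upd_par s hn]
  · intro L P s n hn
    have h := hΨ.exch L P (par L s) (per_par L s) n
    have e0 : par L s ((n : ℕ) : ℤ) = s n := par_nat s (by omega)
    have e1 : par L s (((n : ℕ) : ℤ) + 1) = s (n + 1) := by
      have : (((n : ℕ) : ℤ) + 1) = ((n + 1 : ℕ) : ℤ) := by push_cast; ring
      rw [this]
      exact par_nat s hn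
    rw [swp_par s hn, e0, e1, q_inv] at h
    exact h
  · intro L P s
    have hL := P.two_le
    have h := hΨ.rot L P (par L s) (per_par L s)
    rw [rot_par (by omega) s] at h
    exact h
  · intro L P s hs hP
    have hL := P.two_le
    have e0 : par L s 0 = s 0 := by
      have := par_nat (L := L) s (n := 0) (by omega)
      simpa using this
    have e1 : par L s (0 + 1) = s 1 := by
      have := par_nat (L := L) s (n := 1) (by omega)
      simpa using this
    exact hΨ.arc_zero L P (par L s) (per_par L s) 0 (by rw [e0, e1, hs]) (by simpa using hP)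
  · intro L P w z
    have hL := P.two_le
    set s := scons (q ^ 2 * w) (scons w z) with hs
    have e0 : par (L + 2) s 0 = q ^ 2 * w := by
      have := par_nat (L := L + 2) s (n := 0) (by omega)
      simpa [hs, scons] using this
    have e1 : par (L + 2) s (0 + 1) = w := by
      have := par_nat (L := L + 2) s (n := 1) (by omega)
      simpa [hs, scons] using this
    have e2 : ∀ j, j ∈ Finset.range L → par (L + 2) s (0 + 2 + (j : ℤ)) = z j := by
      intro j hj
      have := par_nat (L := L + 2) s (n := j + 2) (by have := mem_range.mp hj; omega)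
      rw [show (0 : ℤ) + 2 + (j : ℤ) = ((j + 2 : ℕ) : ℤ) by push_cast; ring, this]
      simp [hs, scons]
    have h := hΨ.arc L P (par (L + 2) s) (per_par _ _) 0 (by rw [e0, e1])
    rw [e1] at h
    have e3 : (fun x => par (L + 2) s (phi L 0 x)) = par L z := by
      have := phi_par (L := L) (by omega) s 0 (by omega)
      simp only [Nat.cast_zero] at this
      rw [this]
      congr 1
    rw [e3] at h
    have e4 : ∏ j ∈ Finset.range L, (par (L + 2) s (0 + 2 + (j : ℤ)) - q * w) ^ 2 =
        ∏ j ∈ Finset.range L, (z j - q * w) ^ 2 :=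
      prod_congr rfl (fun j hj => by rw [e2 j hj])
    rw [e4] at h
    exact h
  · intro P s hP
    have h1 : (H56.EX.rot P).m 0 = -1 := by
      have h2 : (H56.EX.rot P).m 1 = 2 := by
        rw [rot_m, sub_self, hP]; norm_num
      have h3 : (H56.EX.rot P).m 2 = 1 := by rw [← h2, (H56.EX.rot P).inv]
      have h4 := (H56.EX.rot P).per 0
      simp only [Nat.cast_ofNat, zero_add] at h4
      rw [h3] at h4
      linarith
    have h := hΨ.rot 2 P (par 2 s) (per_par 2 s)
    rw [rot_par (by omega) s, hbase _ _ h1] at h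
    rw [← h]
    simp [scons]

section conj

variable {κ : ℂ} {Φ : ∀ L : ℕ, Pat L → (ℕ → ℂ) → ℂ}

/-- The conjugate vector. -/
noncomputable def cj (Φ : ∀ L : ℕ, Pat L → (ℕ → ℂ) → ℂ) : ∀ L : ℕ, Pat L → (ℕ → ℂ) → ℂ :=
  fun L P s => (starRingEnd ℂ) (Φ L P (fun n => (starRingEnd ℂ) (s n)))

theorem conj_eop {L : ℕ} (i : ℤ) (v : Pat L → ℂ) (P : Pat L) :
    (starRingEnd ℂ) (eop i v P) = eop i (fun P' => (starRingEnd ℂ) (v P')) P := by
  unfold eop
  rw [map_sum]
  refine sum_congr rfl fun P' _ => ?_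
  split_ifs
  · rfl
  · exact map_zero _

theorem qp_conj (h : QP κ Φ) : QP ((starRingEnd ℂ) κ) (cj Φ) := by
  refine ⟨?_, ?_, ?_, ?_, ?_, ?_, ?_, ?_, ?_⟩
  · have := congrArg (starRingEnd ℂ) h.kk
    simpa using this
  · intro L P
    obtain ⟨p, hp⟩ := h.mv L P
    refine ⟨MvPolynomial.map (starRingEnd ℂ) p, fun s => ?_⟩
    unfold cj
    rw [hp, MvPolynomial.eval_map]
    have := MvPolynomial.eval₂_comp_left (starRingEnd ℂ) (RingHom.id ℂ)
      (fun k : Fin L => (starRingEnd ℂ) (s k)) p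
    rw [RingHom.comp_id] at this
    have e2 : ((starRingEnd ℂ) ∘ fun k : Fin L => (starRingEnd ℂ) (s k)) =
        fun k : Fin L => s k := by
      funext k
      exact Complex.conj_conj _
    rw [e2] at this
    exact this
  · intro L P s n hn
    obtain ⟨p, hp, he⟩ := h.poly L P (fun n => (starRingEnd ℂ) (s n)) n hn
    refine ⟨p.map (starRingEnd ℂ), (Polynomial.natDegree_map_le).trans hp, fun t => ?_⟩
    have e1 : (fun m => (starRingEnd ℂ) (Function.update s n t m)) =
        Function.update (fun n => (starRingEnd ℂ) (s n)) n ((starRingEnd ℂ) t) := by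
      funext m
      by_cases hm : m = n
      · subst hm; simp
      · simp [hm]
    unfold cj
    rw [e1, he, Polynomial.eval_map, Polynomial.eval, Polynomial.hom_eval₂]
    simp
  · intro L P s n hn
    have h1 := congrArg (starRingEnd ℂ) (h.exch L P (fun n => (starRingEnd ℂ) (s n)) n hn)
    simp only [map_mul, map_sub, map_add, map_pow, Complex.conj_conj, conj_eop] at h1
    exact h1
  · intro L P s
    have h1 := congrArg (starRingEnd ℂ) (h.rot L P (fun n => (starRingEnd ℂ) (s n)))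
    have e1 : (fun m => (starRingEnd ℂ) (scons (s (L - 1)) s m)) =
        scons ((starRingEnd ℂ) (s (L - 1))) (fun n => (starRingEnd ℂ) (s n)) := by
      funext m
      rcases m with _ | m <;> simp [scons]
    unfold cj
    rw [e1]
    exact h1
  · intro L P s hs hP
    unfold cj
    rw [h.arc_zero L P (fun n => (starRingEnd ℂ) (s n)) (by simp [hs]) hP, map_zero]
  · intro L P w z
    have h1 := congrArg (starRingEnd ℂ) (h.arc L P ((starRingEnd ℂ) w)
      (fun n => (starRingEnd ℂ) (z n)))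
    have e1 : (fun m => (starRingEnd ℂ) (scons ((starRingEnd ℂ) κ ^ 2 * w) (scons w z) m)) =
        scons (κ ^ 2 * (starRingEnd ℂ) w) (scons ((starRingEnd ℂ) w)
          (fun n => (starRingEnd ℂ) (z n))) := by
      funext m
      rcases m with _ | _ | m <;> simp [scons]
    unfold cj
    rw [e1, h1]
    simp only [map_mul, map_div₀, map_neg, map_pow, map_prod, map_sub, Complex.conj_conj,
      map_ofNat]
  · intro P s hP
    unfold cj
    rw [h.two_base P _ hP]
    simp
  · intro P s hP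
    unfold cj
    rw [h.two_other P _ hP]
    simp

end conj

theorem conj_q : (starRingEnd ℂ) q = q ^ 2 := by
  have h1 : (starRingEnd ℂ) q + q = -1 := by
    apply Complex.ext
    · simp [q]
    · simp [q]
  linear_combination h1 - q_sq

end Pool.Agent.H15.Exact
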