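import Pool.Agent.H12.QKZ.Main
import Pool.Agent.H15.Exact.QP

/-!
# Project EXACT: the components of the qKZ solution at `ζ = 1` are real
-/

set_option autoImplicit false

open Finset

namespace Pool.Agent.H15.Exact

open H56.EX Pool.Agent.H12.QKZ Pool.Agent.H14.EX
open scoped Classical

variable {L : ℕ}

/-- the conjugate solution -/
noncomputable def cinv (L : ℕ) (P : Pat L) (ζ : ℤ → ℂ) : ℂ :=
  (∏ k ∈ range L, ζ k ^ (L - 1)) *
    (starRingEnd ℂ) (Psi L P (fun x => (starRingEnd ℂ) (ζ x)⁻¹))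

theorem cinv_exch (hL : 2 ≤ L) (P : Pat L) (ζ : ℤ → ℂ) (hζ : Per L ζ) (h0 : ∀ x, ζ x ≠ 0)
    (i : ℤ) :
    (q * ζ (i + 1) - q⁻¹ * ζ i) * cinv L P (swp L i ζ) =
      (q * ζ i - q⁻¹ * ζ (i + 1)) * cinv L P ζ +
        (ζ i - ζ (i + 1)) * eop i (fun P' => cinv L P' ζ) P := by
  set η : ℤ → ℂ := fun x => (starRingEnd ℂ) (ζ x)⁻¹ with hη
  have hper : Per L η := fun x => by
    show (starRingEnd ℂ) (ζ (x + L))⁻¹ = (starRingEnd ℂ) (ζ x)⁻¹
    rw [hζ]
  have h1 := congrArg (starRingEnd ℂ) (psiProps.exch L P η hper i)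
  have hcq : (starRingEnd ℂ) q = q⁻¹ := by rw [conj_q, q_inv]
  have hcq' : (starRingEnd ℂ) q⁻¹ = q := by
    rw [map_inv₀, hcq, inv_inv]
  simp only [map_mul, map_sub, map_add, conj_eop, hcq, hcq'] at h1
  have e1 : ∀ x, (starRingEnd ℂ) (η x) = (ζ x)⁻¹ := by
    intro x
    simp [hη]
  rw [e1, e1] at h1
  have e2 : swp L i η = fun x => (starRingEnd ℂ) (swp L i ζ x)⁻¹ := by
    funext x
    simp only [swp_eq, hη]
  have e3 : ∏ k ∈ range L, swp L i ζ k ^ (L - 1) = ∏ k ∈ range L, ζ k ^ (L - 1) :=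
    prod_swp hL hζ i (fun x => x ^ (L - 1)) (Per_swp hζ i)
  rw [e2] at h1
  unfold cinv
  rw [e3]
  set Z0 := ∏ k ∈ range L, ζ k ^ (L - 1) with hZ0
  have e4 : eop i (fun P' => Z0 * (starRingEnd ℂ) (Psi L P' η)) P =
      Z0 * eop i (fun P' => (starRingEnd ℂ) (Psi L P' η)) P := by
    unfold eop
    rw [mul_sum]
    refine sum_congr rfl fun P' _ => ?_
    split_ifs <;> simp
  change _ = (q * ζ i - q⁻¹ * ζ (i + 1)) * (Z0 * (starRingEnd ℂ) (Psi L P η)) +
    (ζ i - ζ (i + 1)) * eop i (fun P' => Z0 * (starRingEnd ℂ) (Psi L P' η)) P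
  rw [e4]
  have hi := h0 i
  have hi1 := h0 (i + 1)
  set A := (starRingEnd ℂ) (Psi L P (fun x => (starRingEnd ℂ) (swp L i ζ x)⁻¹))
  set B := (starRingEnd ℂ) (Psi L P η)
  set C := eop i (fun P' => (starRingEnd ℂ) (Psi L P' η)) P
  have h2 : ζ i * ζ (i + 1) * ((q⁻¹ * (ζ (i + 1))⁻¹ - q * (ζ i)⁻¹) * A) =
      ζ i * ζ (i + 1) * ((q⁻¹ * (ζ i)⁻¹ - q * (ζ (i + 1))⁻¹) * B +
        ((ζ i)⁻¹ - (ζ (i + 1))⁻¹) * C) := by
    rw [h1]
  have e5 : ζ i * (ζ i)⁻¹ = 1 := mul_inv_cancel₀ hi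
  have e6 : ζ (i + 1) * (ζ (i + 1))⁻¹ = 1 := mul_inv_cancel₀ hi1
  linear_combination (-Z0) * h2 + Z0 * (q⁻¹ * ζ i * A + q * ζ i * B + ζ i * C) * e6 -
    Z0 * (q * ζ (i + 1) * A + q⁻¹ * ζ (i + 1) * B + ζ (i + 1) * C) * e5

theorem cinv_rot (P : Pat L) (ζ : ℤ → ℂ) (hζ : Per L ζ) :
    cinv L (rot P) (fun x => ζ (x - 1)) = cinv L P ζ := by
  set η : ℤ → ℂ := fun x => (starRingEnd ℂ) (ζ x)⁻¹ with hη
  have hper : Per L η := fun x => by
    show (starRingEnd ℂ) (ζ (x + L))⁻¹ = (starRingEnd ℂ) (ζ x)⁻¹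
    rw [hζ]
  unfold cinv
  have h1 := psiProps.rot L P η hper
  have h2 := prod_period (L := L) (ψ := fun x => ζ x ^ (L - 1)) (fun x => by
    show ζ (x + L) ^ (L - 1) = ζ x ^ (L - 1)
    rw [hζ]) (-1)
  have h3 : ∏ k ∈ range L, ζ ((k : ℤ) - 1) ^ (L - 1) = ∏ k ∈ range L, ζ k ^ (L - 1) := by
    rw [← h2]
    refine prod_congr rfl fun k _ => ?_
    rw [show (-1 : ℤ) + k = k - 1 by ring]
  rw [h3]
  congr 2

theorem prod_pairs (f : ℕ → ℂ) (L : ℕ) :
    ∏ k ∈ range L, f k ^ (L - 1) = ∏ j ∈ range L, ∏ i ∈ range j, (f i * f j) := by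
  induction L with
  | zero => simp
  | succ L ih =>
    rw [prod_range_succ, prod_range_succ, ← ih, prod_mul_distrib, prod_const, card_range,
      Nat.add_sub_cancel, ← mul_assoc, ← prod_mul_distrib]
    congr 1
    refine prod_congr rfl fun k hk => ?_
    have : L - 1 + 1 = L := by have := mem_range.mp hk; omega
    rw [← pow_succ, this]

theorem cinv_base (P : Pat L) (hP : IsBase P) (ζ : ℤ → ℂ) (h0 : ∀ x, ζ x ≠ 0) :
    cinv L P ζ = Psi L P ζ := by
  unfold cinv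
  rw [psiProps.base L P _ hP, psiProps.base L P _ hP]
  have hcq : (starRingEnd ℂ) q = q⁻¹ := by rw [conj_q, q_inv]
  have hcq' : (starRingEnd ℂ) q⁻¹ = q := by
    rw [map_inv₀, hcq, inv_inv]
  rw [prod_pairs (fun k : ℕ => ζ k), map_prod, ← prod_mul_distrib]
  refine prod_congr rfl fun j _ => ?_
  rw [map_prod, ← prod_mul_distrib]
  refine prod_congr rfl fun i _ => ?_
  simp only [map_div₀, map_sub, map_mul, hcq, hcq', Complex.conj_conj]
  have hi := h0 i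
  have hj := h0 j
  have e5 : ζ i * (ζ i)⁻¹ = 1 := mul_inv_cancel₀ hi
  have e6 : ζ j * (ζ j)⁻¹ = 1 := mul_inv_cancel₀ hj
  rw [← neg_div_neg_eq (q⁻¹ * (ζ j)⁻¹ - q * (ζ i)⁻¹), mul_div_assoc', neg_sub, neg_sub]
  congr 1
  linear_combination q * ζ j * e5 - q⁻¹ * ζ i * e6

/-- The conjugate solution is the solution. -/
theorem cinv_eq (P : Pat L) (ζ : ℤ → ℂ) (hζ : ζ ∈ gen L 0) : cinv L P ζ = Psi L P ζ := by
  have hL := P.two_le
  have key := triangular L (ℤ → ℂ) (gen L 0) (fun i ζ => swp L i ζ) (fun ζ x => ζ (x - 1))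
    (fun ζ => ζ) (fun P ζ => cinv L P ζ - Psi L P ζ) ?_ ?_ ?_ ?_ ?_ ?_ P ζ hζ
  · exact sub_eq_zero.mp key
  · intro i ζ hζ
    exact gen_swp hL i hζ
  · rintro ζ ⟨h1, h2, h3⟩
    refine ⟨fun x => ζ (x + 1), ⟨?_, ?_, ?_⟩, ?_⟩
    · intro x
      show ζ (x + L + 1) = ζ (x + 1)
      rw [show x + (L : ℤ) + 1 = x + 1 + L by ring, h1]
    · intro x y hxy
      have := h2 _ _ hxy
      have := Cg.sub 1 this
      simpa using this
    · intro x
      exact h3 (x + 1)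
    · funext x
      show ζ (x - 1 + 1) = ζ x
      rw [sub_add_cancel]
  · rintro ζ ⟨_, h2, _⟩ i h
    exact not_Cg_succ hL i (h2 _ _ h)
  · rintro P ζ ⟨h1, _, h3⟩ i
    have e1 := cinv_exch hL P ζ h1 (fun x => (h3 x).1) i
    have e2 := psiProps.exch L P ζ h1 i
    have e3 : eop i (fun P' => cinv L P' ζ - Psi L P' ζ) P =
        eop i (fun P' => cinv L P' ζ) P - eop i (fun P' => Psi L P' ζ) P := by
      unfold eop
      rw [← sum_sub_distrib]
      refine sum_congr rfl fun P' _ => ?_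
      split_ifs <;> simp
    rw [e3]
    linear_combination e1 - e2
  · rintro P ζ ⟨h1, _, _⟩
    show cinv L (rot P) (fun x => ζ (x - 1)) - Psi L (rot P) (fun x => ζ (x - 1)) = _
    rw [cinv_rot P ζ h1, psiProps.rot L P ζ h1]
  · rintro P hP ζ ⟨_, _, h3⟩
    rw [cinv_base P hP ζ (fun x => (h3 x).1), sub_self]

theorem psi_cont (P : Pat L) (F : ℝ → ℤ → ℂ) (hF : ∀ k, ContinuousAt (fun t => F t k) 0) :
    ContinuousAt (fun t => Psi L P (F t)) 0 := by
  obtain ⟨p, hp⟩ := psiProps.mv L P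
  have h1 : (fun t => Psi L P (F t)) =
      (fun s : Fin L → ℂ => MvPolynomial.eval s p) ∘ fun t => fun k : Fin L => F t ((k : ℕ) : ℤ) := by
    funext t
    exact hp (F t)
  rw [h1]
  refine ContinuousAt.comp ?_ ?_
  · exact (MvPolynomial.continuous_eval p).continuousAt
  · exact continuousAt_pi.mpr fun k => hF _

/-- The components at `ζ = 1` are real. -/
theorem conj_psi_one (P : Pat L) :
    (starRingEnd ℂ) (Psi L P (fun _ => 1)) = Psi L P (fun _ => 1) := by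
  have hL := P.two_le
  have hLp : (0 : ℤ) < L := by omega
  set zt : ℝ → ℤ → ℂ := fun t x => 1 + (t : ℂ) * ((x % (L : ℤ) : ℤ) : ℂ) with hzt
  have hre : ∀ t x, zt t x = ((1 + t * ((x % (L : ℤ) : ℤ) : ℝ) : ℝ) : ℂ) := by
    intro t x
    simp [hzt]
  have hgen : ∀ t : ℝ, 0 < t → zt t ∈ gen L 0 := by
    intro t ht
    refine ⟨?_, ?_, ?_⟩
    · intro x
      simp only [hzt, Int.add_emod_right]
    · intro x y hxy
      simp only [hzt] at hxy
      have h1 : (t : ℂ) * ((x % (L : ℤ) : ℤ) : ℂ) = (t : ℂ) * ((y % (L : ℤ) : ℤ) : ℂ) :=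
        add_left_cancel hxy
      have ht0 : (t : ℂ) ≠ 0 := by exact_mod_cast ht.ne'
      have h2 := mul_left_cancel₀ ht0 h1
      have h3 : x % (L : ℤ) = y % (L : ℤ) := by exact_mod_cast h2
      unfold Cg
      exact Int.ModEq.dvd h3.symm
    · intro x
      have h1 : (0 : ℝ) ≤ ((x % (L : ℤ) : ℤ) : ℝ) := by
        exact_mod_cast Int.emod_nonneg x hLp.ne'
      have h2 : zt t x ≠ 0 := by
        rw [hre]
        have : (0 : ℝ) < 1 + t * ((x % (L : ℤ) : ℤ) : ℝ) := by positivity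
        exact_mod_cast this.ne'
      exact ⟨h2, by rwa [mul_zero]⟩
  have hz0 : zt 0 = fun _ => 1 := by
    funext x
    simp [hzt]
  have c0 : ∀ k, ContinuousAt (fun t : ℝ => zt t k) 0 := by
    intro k
    have : Continuous (fun t : ℝ => zt t k) := by
      simp only [hzt]
      fun_prop
    exact this.continuousAt
  have c1 : ∀ k, ContinuousAt (fun t : ℝ => (starRingEnd ℂ) (zt t k)⁻¹) 0 := by
    intro k
    have h1 : ContinuousAt (fun t : ℝ => (zt t k)⁻¹) 0 :=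
      (c0 k).inv₀ (by rw [hz0]; exact one_ne_zero)
    exact Complex.continuous_conj.continuousAt.comp h1
  have h1 : ContinuousAt (fun t : ℝ => cinv L P (zt t)) 0 := by
    unfold cinv
    refine ContinuousAt.mul ?_ ?_
    · have := tendsto_finsetProd (f := fun (k : ℕ) (t : ℝ) => zt t k ^ (L - 1))
        (x := nhds (0 : ℝ)) (a := fun k => zt 0 k ^ (L - 1)) (range L)
        (fun k _ => ((c0 k).pow (L - 1)))
      exact this
    · exact Complex.continuous_conj.continuousAt.comp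
        (psi_cont P (fun t x => (starRingEnd ℂ) (zt t x)⁻¹) c1)
  have h2 : ContinuousAt (fun t : ℝ => Psi L P (zt t)) 0 := psi_cont P zt c0
  have h3 : Filter.Tendsto (fun t : ℝ => cinv L P (zt t)) (nhdsWithin 0 (Set.Ioi 0))
      (nhds (cinv L P (zt 0))) := h1.tendsto.mono_left nhdsWithin_le_nhds
  have h4 : Filter.Tendsto (fun t : ℝ => Psi L P (zt t)) (nhdsWithin 0 (Set.Ioi 0))
      (nhds (Psi L P (zt 0))) := h2.tendsto.mono_left nhdsWithin_le_nhds
  have h5 : cinv L P (zt 0) = Psi L P (zt 0) := by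
    refine tendsto_nhds_unique h3 (h4.congr' ?_)
    filter_upwards [self_mem_nhdsWithin] with t ht
    exact (cinv_eq P (zt t) (hgen t ht)).symm
  rw [hz0] at h5
  have h6 : cinv L P (fun _ => 1) = (starRingEnd ℂ) (Psi L P (fun _ => 1)) := by
    unfold cinv
    simp
  rw [← h6, h5]

end Pool.Agent.H15.Exact
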