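import Pool.Agent.H15.Exact.GPoly
import Pool.Agent.H15.Exact.Real
import Pool.Agent.H89.Link.Defs

/-!
# Project EXACT, one-arm formula: final statements

`vR P` is the component at the pattern `P` of the stationary vector (`ζ = 1`).
-/

set_option autoImplicit false

open Finset

namespace Pool.Agent.H15.Exact

open H56.EX Pool.Agent.H12.QKZ
open scoped Classical

variable {κ τ : ℂ} {Φ Φ' : ∀ L : ℕ, Pat L → (ℕ → ℂ) → ℂ} {W : ∀ L : ℕ, Pat L → Pat L → ℂ}

theorem eval_GG_one (h : QP κ Φ) (h' : QP (κ ^ 2) Φ') (n : ℕ) (hn : 1 ≤ n) :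
    MvPolynomial.eval (fun _ => 1) (GG h h' W n) =
      cc n * Gv W Φ' Φ (2 * n) (fun _ => 1) := by
  obtain ⟨m, rfl⟩ : ∃ m, n = m + 1 := ⟨n - 1, by omega⟩
  rw [← eval_GP h h']
  change MvPolynomial.eval _ (MvPolynomial.C (cc (m + 1)) * GP h h' W (2 * (m + 1))) = _
  rw [map_mul, MvPolynomial.eval_C]

/-- **The one-arm formula**: the pairing at `ζ = 1`. -/
theorem Gv_one (h : QP κ Φ) (h' : QP (κ ^ 2) Φ') (hW : FormProps τ W) (ω : ℂ)
    (hω : ω * (τ + 2) = (1 + ω) ^ 2) (n : ℕ) (hn : 1 ≤ n) :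
    ω ^ n * Gv W Φ' Φ (2 * n) (fun _ => 1) =
      (ω • (1 : Matrix (Fin (2 * n)) (Fin (2 * n)) ℂ) + EX93.pasc ℂ (2 * n)).det := by
  have h1 := EX93.eval_one κ ω 1 τ h.kk hω (GG h h' W) (fun z => by
      change MvPolynomial.eval z 1 = 1
      exact map_one _)
    (fun n σ z => by
      rcases n with _ | n
      · change MvPolynomial.eval _ 1 = MvPolynomial.eval _ 1
        rw [map_one, map_one]
      · change MvPolynomial.eval _ (MvPolynomial.C (cc (n + 1)) * GP h h' W (2 * (n + 1))) =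
          MvPolynomial.eval _ (MvPolynomial.C (cc (n + 1)) * GP h h' W (2 * (n + 1)))
        rw [map_mul, map_mul, GP_perm h h' hW, MvPolynomial.eval_C, MvPolynomial.eval_C])
    (GG_wheel h h' hW) (GG_top h h' hW) n
  rw [eval_GG_one h h' n hn, cc_eq, one_pow, one_mul] at h1
  have h3 : (3 : ℂ) ^ (n * (2 * n - 1)) ≠ 0 := pow_ne_zero _ (by norm_num)
  apply mul_left_cancel₀ h3
  rw [← h1]
  ring

/-- Square of the pairing at `ζ = 1`. -/
theorem Gv_one_sq (h : QP κ Φ) (h' : QP (κ ^ 2) Φ') (hW : FormProps τ W) (n : ℕ) (hn : 1 ≤ n) :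
    Gv W Φ' Φ (2 * n) (fun _ => 1) ^ 2 =
      (1 + τ • EX93.pasc ℂ (2 * n) + EX93.pasc ℂ (2 * n) ^ 2).det := by
  obtain ⟨ω, hω, h1, h2, h3⟩ := EX93.exists_omega τ
  have e1 := Gv_one h h' hW ω h1 n hn
  have e2 := Gv_one h h' hW ω⁻¹ h2 n hn
  rw [← EX93.det_factor ω τ hω h3, ← e1, ← e2]
  have hn : ω ^ n * ω⁻¹ ^ n = 1 := by
    rw [← mul_pow, mul_inv_cancel₀ hω, one_pow]
  linear_combination (-(Gv W Φ' Φ (2 * n) (fun _ => 1) ^ 2)) * hn

/-- The stationary vector (real components). -/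
noncomputable def vR (L : ℕ) (P : Pat L) : ℝ := (Psi L P (fun _ => 1)).re

theorem vR_eq (L : ℕ) (P : Pat L) : (vR L P : ℂ) = Psi L P (fun _ => 1) :=
  Complex.conj_eq_iff_re.mp (conj_psi_one P)

/-- The solution with parameters given by a sequence. -/
noncomputable def Phi0 : ∀ L : ℕ, Pat L → (ℕ → ℂ) → ℂ := fun L P s => Psi L P (par L s)

theorem qp0 : QP q Phi0 := qp_of_psi psiProps

theorem qp0' : QP (q ^ 2) (cj Phi0) := by
  have := qp_conj qp0
  rwa [conj_q] at this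

theorem vec_phi (L : ℕ) : vec Phi0 L (fun _ => 1) = fun P => (vR L P : ℂ) := by
  funext P
  rw [vR_eq]
  rfl

theorem vec_cj (L : ℕ) : vec (cj Phi0) L (fun _ => 1) = fun P => (vR L P : ℂ) := by
  funext P
  change (starRingEnd ℂ) (Psi L P (par L (fun _ => (starRingEnd ℂ) 1))) = _
  rw [map_one, vR_eq, ← conj_psi_one P]
  rfl

theorem even_card_of_closed {L : ℕ} (P : Pat L) (X : Finset ℤ) (h : ∀ x ∈ X, P.m x ∈ X) :
    Even X.card := by
  have h1 : ∑ _x ∈ X, (1 : ZMod 2) = 0 := by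
    refine Finset.sum_involution (fun x _ => P.m x) ?_ ?_ ?_ ?_
    · intro x _
      decide
    · intro x _ _
      exact P.ne x
    · intro x hx
      exact h x hx
    · intro x _
      exact P.inv x
  rw [sum_const, nsmul_eq_mul, mul_one] at h1
  exact (ZMod.natCast_eq_zero_iff_even).mp h1

theorem noSurr_iff {L : ℕ} (P Q : Pat L) : Pool.Agent.H89.Link.NoSurr P Q ↔ ¬ Surr P Q := by
  have hcard : ∀ X : Finset ℤ, (X.filter (· < 0)).card + (X.filter fun c => 0 ≤ c).card =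
      X.card := by
    intro X
    rw [← card_filter_add_card_filter_not (s := X) (p := fun c : ℤ => c < 0)]
    congr 2
    ext x
    simp
  constructor
  · rintro h ⟨X, h1, h2, h3⟩
    have h4 := h X h1 h2
    have h5 := even_card_of_closed P X h1
    rw [← hcard X] at h5
    exact (Nat.not_even_iff_odd.mpr (h3.add_even h4)) h5
  · intro h X h1 h2
    by_contra h3
    rw [Nat.not_even_iff_odd] at h3
    apply h
    refine ⟨X, h1, h2, ?_⟩
    have h5 := even_card_of_closed P X h1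
    rw [← hcard X] at h5
    by_contra h6
    rw [Nat.not_odd_iff_even] at h6
    exact (Nat.not_even_iff_odd.mpr (h6.add_odd h3)) h5

/-- The unnormalised one-arm sum. -/
noncomputable def arm1 (L : ℕ) : ℝ :=
  ∑ P : Pat L, ∑ Q : Pat L, if Pool.Agent.H89.Link.NoSurr P Q then vR L P * vR L Q else 0

theorem arm1_sq (n : ℕ) (hn : 1 ≤ n) :
    arm1 (2 * n) ^ 2 = (1 + EX93.pasc ℝ (2 * n) ^ 2).det := by
  have h1 := Gv_one_sq qp0 qp0' formProps_zero n hn
  have h2 : Gv W0 (cj Phi0) Phi0 (2 * n) (fun _ => 1) = ((arm1 (2 * n) : ℝ) : ℂ) := by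
    unfold Gv arm1
    rw [vec_phi, vec_cj, bf_apply, Complex.ofReal_sum]
    refine sum_congr rfl fun P _ => ?_
    rw [Complex.ofReal_sum]
    refine sum_congr rfl fun Q _ => ?_
    by_cases h : Pool.Agent.H89.Link.NoSurr P Q
    · rw [if_pos h, W0_of_not ((noSurr_iff P Q).mp h), one_mul, Complex.ofReal_mul]
    · rw [if_neg h, W0_of (not_not.mp (fun h' => h ((noSurr_iff P Q).mpr h'))), zero_mul,
        Complex.ofReal_zero]
  rw [h2] at h1
  have h3 := EX93.det_pasc_real (2 * n) 0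
  rw [Complex.ofReal_zero, zero_smul, zero_smul, add_zero, add_zero] at h3
  rw [zero_smul, add_zero, h3] at h1
  exact_mod_cast h1

theorem sum_vR_pow (n : ℕ) (hn : 1 ≤ n) :
    (∑ P : Pat (2 * n), vR (2 * n) P) ^ 4 =
      (1 + EX93.pasc ℝ (2 * n) + EX93.pasc ℝ (2 * n) ^ 2).det := by
  have h1 := Gv_one_sq qp0 qp0' formProps_one n hn
  have h2 : Gv (fun _ _ _ => 1) (cj Phi0) Phi0 (2 * n) (fun _ => 1) =
      (((∑ P : Pat (2 * n), vR (2 * n) P) ^ 2 : ℝ) : ℂ) := by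
    unfold Gv
    rw [vec_phi, vec_cj, bf_apply, sq, Complex.ofReal_mul, Complex.ofReal_sum, sum_mul]
    refine sum_congr rfl fun P _ => ?_
    rw [mul_sum]
    refine sum_congr rfl fun Q _ => ?_
    rw [one_mul]
  rw [h2] at h1
  have h3 := EX93.det_pasc_real (2 * n) 1
  rw [Complex.ofReal_one, one_smul, one_smul] at h3
  rw [one_smul, h3] at h1
  have h4 : ((∑ P : Pat (2 * n), vR (2 * n) P) ^ 2) ^ 2 =
      (1 + EX93.pasc ℝ (2 * n) + EX93.pasc ℝ (2 * n) ^ 2).det := by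
    exact_mod_cast h1
  rw [← h4]
  ring

/-- **One-arm formula**, normalised. -/
theorem oneArm_formula (n : ℕ) (hn : 1 ≤ n) :
    (arm1 (2 * n) / (∑ P : Pat (2 * n), vR (2 * n) P) ^ 2) ^ 2 =
      (1 + EX93.pasc ℝ (2 * n) ^ 2).det /
        (1 + EX93.pasc ℝ (2 * n) + EX93.pasc ℝ (2 * n) ^ 2).det := by
  rw [div_pow, arm1_sq n hn, ← pow_mul, sum_vR_pow n hn]

end Pool.Agent.H15.Exact
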