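import Pool.Agent.H56.EX.Defs

/-!
# Project EXACT, one-arm formula: the form of a pair of patterns with a marked gap

The marked gap lies between strand `-1` and strand `0`.
-/

set_option autoImplicit false

open Finset

namespace Pool.Agent.H15.Exact

open H56.EX

variable {L : ℕ}

/-- Some loop formed by the two patterns is contractible and surrounds the gap between strand
`-1` and strand `0`: there is a finite union of loops (on the universal cover) with an odd number of
points to the left of the gap. -/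
def Surr (P Q : Pat L) : Prop :=
  ∃ S : Finset ℤ, (∀ x ∈ S, P.m x ∈ S) ∧ (∀ x ∈ S, Q.m x ∈ S) ∧ Odd (S.filter (· < 0)).card

/-- Axioms of the form `τ ^ (number of loops around the gap)`. -/
structure FormProps (τ : ℂ) (W : ∀ L : ℕ, Pat L → Pat L → ℂ) : Prop where
  /-- the move `e_i` is self-adjoint if it does not straddle the gap -/
  adj : ∀ (L : ℕ) (i : ℤ), 0 ≤ i → i + 1 < L → ∀ P Q : Pat L, W L (E i P) Q = W L P (E i Q)
  /-- a small loop which does not surround the gap has weight one -/
  ins0 : ∀ (L : ℕ) (P Q : Pat L), W (L + 2) (ins 0 P) (ins 0 Q) = W L P Q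
  /-- a small loop around the gap has weight `τ` -/
  insm : ∀ (L : ℕ) (P Q : Pat L),
    W (L + 2) (ins (-1) P) (ins (-1) Q) = τ * W L (rot P) (rot Q)
  /-- two strands -/
  two_left : ∀ P Q : Pat 2, P.m 0 = 1 → W 2 P Q = 1
  /-- two strands -/
  two_right : ∀ P Q : Pat 2, Q.m 0 = 1 → W 2 P Q = 1
  /-- two strands -/
  two_base : ∀ P Q : Pat 2, P.m 0 = -1 → Q.m 0 = -1 → W 2 P Q = τ

/-- The form with weight one. -/
theorem formProps_one : FormProps 1 (fun _ _ _ => 1) where
  adj := fun _ _ _ _ _ _ => rfl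
  ins0 := fun _ _ _ => rfl
  insm := fun _ _ _ => by norm_num
  two_left := fun _ _ _ => rfl
  two_right := fun _ _ _ => rfl
  two_base := fun _ _ _ _ => rfl

theorem surr_comm {P Q : Pat L} : Surr P Q ↔ Surr Q P := by
  constructor
  · rintro ⟨S, h1, h2, h3⟩
    exact ⟨S, h2, h1, h3⟩
  · rintro ⟨S, h1, h2, h3⟩
    exact ⟨S, h2, h1, h3⟩

theorem neg_iff_of_cg {i x : ℤ} (h0 : 0 ≤ i) (h1 : i + 1 < L) (h : Cg L x i) :
    x < 0 ↔ x + 1 < 0 := by
  obtain ⟨k, hk⟩ := h
  constructor
  · intro hx
    have hk0 : k < 0 := by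
      by_contra hc
      rw [not_lt] at hc
      have : (0 : ℤ) ≤ L * k := mul_nonneg (by omega) hc
      omega
    have : (L : ℤ) * k ≤ -L := by nlinarith
    omega
  · intro hx
    omega

theorem pair_even {i : ℤ} (h0 : 0 ≤ i) (h1 : i + 1 < L) (U : Finset ℤ)
    (hpr : ∀ x ∈ U, Cg L x i ∨ Cg L x (i + 1)) (hs : ∀ x ∈ U, Cg L x i → x + 1 ∈ U)
    (hp : ∀ x ∈ U, Cg L x (i + 1) → x - 1 ∈ U) : Even (U.filter (· < 0)).card := by
  classical
  have hL : 2 ≤ L := by omega
  set U1 := U.filter (fun x => Cg L x i ∧ x < 0) with hU1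
  set U2 := U.filter (fun x => Cg L x (i + 1) ∧ x < 0) with hU2
  have hdisj : Disjoint U1 U2 := by
    rw [Finset.disjoint_left]
    intro x hx1 hx2
    have a1 := (mem_filter.mp hx1).2.1
    have a2 := (mem_filter.mp hx2).2.1
    exact not_Cg_succ hL i (Cg.trans' (Cg.symm' a1) a2)
  have hun : U.filter (· < 0) = U1 ∪ U2 := by
    ext x
    simp only [hU1, hU2, mem_filter, mem_union]
    constructor
    · rintro ⟨hx, hx0⟩
      rcases hpr x hx with h | h
      · left; exact ⟨hx, h, hx0⟩
      · right; exact ⟨hx, h, hx0⟩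
    · rintro (⟨hx, _, hx0⟩ | ⟨hx, _, hx0⟩) <;> exact ⟨hx, hx0⟩
  have him : U2 = U1.image (· + 1) := by
    ext x
    simp only [hU1, hU2, mem_filter, mem_image]
    constructor
    · rintro ⟨hx, hc, hx0⟩
      have hc' : Cg L (x - 1) i := by
        have := Cg.sub 1 hc
        simpa using this
      refine ⟨x - 1, ⟨hp x hx hc, hc', ?_⟩, by ring⟩
      rw [neg_iff_of_cg h0 h1 hc']
      simpa using hx0
    · rintro ⟨y, ⟨hy, hc, hy0⟩, rfl⟩
      exact ⟨hs y hy hc, Cg.add 1 hc, (neg_iff_of_cg h0 h1 hc).mp hy0⟩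
  have hcard : U2.card = U1.card := by
    rw [him]
    exact card_image_of_injective _ (fun a b h => by simpa using h)
  rw [hun, card_union_of_disjoint hdisj, hcard]
  exact ⟨_, rfl⟩

theorem surr_E_aux {i : ℤ} (h0 : 0 ≤ i) (h1 : i + 1 < L) {P Q : Pat L} (h : Surr (E i P) Q) :
    Surr P (E i Q) := by
  classical
  obtain ⟨S, hP, hQ, hodd⟩ := h
  set R := S.filter (fun x => ¬ (Cg L x i ∨ Cg L x (i + 1))) with hR
  set T := (R.image P.m).filter (fun x => Cg L x i ∨ Cg L x (i + 1)) with hT
  have memT : ∀ x, x ∈ T ↔ (P.m x ∈ R ∧ (Cg L x i ∨ Cg L x (i + 1))) := by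
    intro x
    rw [hT, mem_filter, mem_image]
    constructor
    · rintro ⟨⟨y, hy, rfl⟩, hx⟩
      rw [P.inv]
      exact ⟨hy, hx⟩
    · rintro ⟨hx, hx'⟩
      exact ⟨⟨P.m x, hx, P.inv x⟩, hx'⟩
  have memR : ∀ x, x ∈ R ↔ (x ∈ S ∧ ¬ Cg L x i ∧ ¬ Cg L x (i + 1)) := by
    intro x
    rw [hR, mem_filter, not_or]
  -- the partners of `z` and `z + 1`
  have ha : ∀ z, Cg L z i → P.m z ∈ R → P.m (z + 1) ∈ R := by
    intro z hz hw
    obtain ⟨hw1, hw2, hw3⟩ := (memR _).mp hw
    have e := E.of_m P i hw2 hw3 (by rw [P.inv]; exact hz)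
    rw [P.inv] at e
    have hn := E.mem_not P i hw2 hw3
    have hin := hP _ hw1
    rw [e] at hn hin
    exact (memR _).mpr ⟨hin, hn.1, hn.2⟩
  have hb : ∀ z, Cg L z (i + 1) → P.m z ∈ R → P.m (z - 1) ∈ R := by
    intro z hz hw
    obtain ⟨hw1, hw2, hw3⟩ := (memR _).mp hw
    have e := E.of_m_succ P i hw2 hw3 (by rw [P.inv]; exact hz)
    rw [P.inv] at e
    have hn := E.mem_not P i hw2 hw3
    have hin := hP _ hw1
    rw [e] at hn hin
    exact (memR _).mpr ⟨hin, hn.1, hn.2⟩
  have hTs : ∀ x ∈ T, Cg L x i → x + 1 ∈ T := by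
    intro x hx hc
    rw [memT] at hx ⊢
    exact ⟨ha x hc hx.1, Or.inr (Cg.add 1 hc)⟩
  have hTp : ∀ x ∈ T, Cg L x (i + 1) → x - 1 ∈ T := by
    intro x hx hc
    rw [memT] at hx ⊢
    refine ⟨hb x hc hx.1, Or.inl ?_⟩
    have := Cg.sub 1 hc
    simpa using this
  have hdisj : Disjoint R T := by
    rw [Finset.disjoint_left]
    intro x hx1 hx2
    obtain ⟨_, h2, h3⟩ := (memR x).mp hx1
    rcases ((memT x).mp hx2).2 with h | h
    · exact h2 h
    · exact h3 h
  refine ⟨R ∪ T, ?_, ?_, ?_⟩
  · intro x hx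
    rcases mem_union.mp hx with hx | hx
    · obtain ⟨hxS, hx1, hx2⟩ := (memR x).mp hx
      by_cases hpr : Cg L (P.m x) i ∨ Cg L (P.m x) (i + 1)
      · refine mem_union_right _ ((memT _).mpr ⟨?_, hpr⟩)
        rw [P.inv]
        exact hx
      · rw [not_or] at hpr
        refine mem_union_left _ ((memR _).mpr ⟨?_, hpr.1, hpr.2⟩)
        have := hP x hxS
        rwa [E.other P i hx1 hx2 hpr.1 hpr.2] at this
    · exact mem_union_left _ ((memT x).mp hx).1
  · intro x hx
    rcases mem_union.mp hx with hx | hx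
    · obtain ⟨hxS, hx1, hx2⟩ := (memR x).mp hx
      have hn := E.mem_not Q i hx1 hx2
      refine mem_union_left _ ((memR _).mpr ⟨?_, hn.1, hn.2⟩)
      have hQx := hQ x hxS
      by_cases c1 : Cg L (Q.m x) i
      · rw [E.of_m Q i hx1 hx2 c1]
        refine hQ _ ?_
        have := hP _ hQx
        rwa [E.of_i P i c1] at this
      by_cases c2 : Cg L (Q.m x) (i + 1)
      · rw [E.of_m_succ Q i hx1 hx2 c2]
        refine hQ _ ?_
        have := hP _ hQx
        rwa [E.of_succ P i c2] at this
      rw [E.other Q i hx1 hx2 c1 c2]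
      exact hQx
    · rcases ((memT x).mp hx).2 with h | h
      · rw [E.of_i Q i h]
        exact mem_union_right _ (hTs x hx h)
      · rw [E.of_succ Q i h]
        exact mem_union_right _ (hTp x hx h)
  · -- parity
    have e1 : Even (T.filter (· < 0)).card :=
      pair_even h0 h1 T (fun x hx => ((memT x).mp hx).2) hTs hTp
    set U := S.filter (fun x => Cg L x i ∨ Cg L x (i + 1)) with hU
    have e2 : Even (U.filter (· < 0)).card := by
      refine pair_even h0 h1 U (fun x hx => (mem_filter.mp hx).2) ?_ ?_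
      · intro x hx hc
        refine mem_filter.mpr ⟨?_, Or.inr (Cg.add 1 hc)⟩
        have := hP x (mem_filter.mp hx).1
        rwa [E.of_i P i hc] at this
      · intro x hx hc
        refine mem_filter.mpr ⟨?_, Or.inl ?_⟩
        · have := hP x (mem_filter.mp hx).1
          rwa [E.of_succ P i hc] at this
        · have := Cg.sub 1 hc
          simpa using this
    have c1 : ((R ∪ T).filter (· < 0)).card = (R.filter (· < 0)).card + (T.filter (· < 0)).card := by
      rw [filter_union, card_union_of_disjoint (disjoint_filter_filter hdisj)]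
    have c2 : (S.filter (· < 0)).card = (U.filter (· < 0)).card + (R.filter (· < 0)).card := by
      have : S.filter (· < 0) = U.filter (· < 0) ∪ R.filter (· < 0) := by
        ext x
        simp only [hU, hR, mem_filter, mem_union]
        tauto
      rw [this, card_union_of_disjoint]
      rw [Finset.disjoint_left]
      intro x hx1 hx2
      exact (mem_filter.mp (mem_filter.mp hx2).1).2 (mem_filter.mp (mem_filter.mp hx1).1).2
    rw [c1]
    rw [c2] at hodd
    have hR : Odd (R.filter (· < 0)).card := by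
      rcases Nat.odd_add.mp hodd with h
      by_contra hc
      rw [Nat.not_odd_iff_even] at hc
      have := h.mpr hc
      exact (Nat.not_odd_iff_even.mpr e2) this
    exact hR.add_even e1

theorem surr_E {i : ℤ} (h0 : 0 ≤ i) (h1 : i + 1 < L) (P Q : Pat L) :
    Surr (E i P) Q ↔ Surr P (E i Q) := by
  constructor
  · exact surr_E_aux h0 h1
  · intro h
    rw [surr_comm] at h ⊢
    exact surr_E_aux h0 h1 h

theorem phi_zero_neg (hL : 1 ≤ L) (y : ℤ) : phi L 0 y < 0 ↔ y < 0 := by
  unfold phi
  have hLp : (0 : ℤ) < L := by exact_mod_cast hL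
  rw [sub_zero]
  constructor
  · intro h
    by_contra hc
    rw [not_lt] at hc
    have : 0 ≤ y / (L : ℤ) := Int.ediv_nonneg hc hLp.le
    omega
  · intro h
    have : y / (L : ℤ) < 0 := Int.ediv_neg_of_neg_of_pos h hLp
    omega

theorem surr_ins0 (P Q : Pat L) : Surr (ins 0 P) (ins 0 Q) ↔ Surr P Q := by
  classical
  have hL : 1 ≤ L := le_trans (by norm_num) P.two_le
  have hinj : Function.Injective (phi L 0) := fun x y h => phi_inj hL h
  constructor
  · rintro ⟨S, hP, hQ, hodd⟩
    refine ⟨S.preimage (phi L 0) hinj.injOn, ?_, ?_, ?_⟩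
    · intro x hx
      rw [mem_preimage] at hx ⊢
      rw [← ins_phi]
      exact hP _ hx
    · intro x hx
      rw [mem_preimage] at hx ⊢
      rw [← ins_phi]
      exact hQ _ hx
    · set U := S.filter (fun x => Cg (L + 2) x 0 ∨ Cg (L + 2) x (0 + 1)) with hU
      have e2 : Even (U.filter (· < 0)).card := by
        refine pair_even (i := 0) le_rfl (by push_cast; omega) U (fun x hx => (mem_filter.mp hx).2) ?_ ?_
        · intro x hx hc
          refine mem_filter.mpr ⟨?_, Or.inr (Cg.add 1 hc)⟩
          have := hP x (mem_filter.mp hx).1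
          rwa [ins_i 0 P hc] at this
        · intro x hx hc
          refine mem_filter.mpr ⟨?_, Or.inl ?_⟩
          · have := hP x (mem_filter.mp hx).1
            rwa [ins_succ 0 P hc] at this
          · have := Cg.sub 1 hc
            simpa using this
      set R := S.filter (fun x => ¬ (Cg (L + 2) x 0 ∨ Cg (L + 2) x (0 + 1))) with hR
      have c2 : (S.filter (· < 0)).card = (U.filter (· < 0)).card + (R.filter (· < 0)).card := by
        have : S.filter (· < 0) = U.filter (· < 0) ∪ R.filter (· < 0) := by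
          ext x
          simp only [hU, hR, mem_filter, mem_union]
          tauto
        rw [this, card_union_of_disjoint]
        rw [Finset.disjoint_left]
        intro x hx1 hx2
        exact (mem_filter.mp (mem_filter.mp hx2).1).2 (mem_filter.mp (mem_filter.mp hx1).1).2
      have c3 : (R.filter (· < 0)) =
          ((S.preimage (phi L 0) hinj.injOn).filter (· < 0)).image (phi L 0) := by
        ext x
        simp only [hR, mem_filter, mem_image, mem_preimage]
        constructor
        · rintro ⟨⟨hx, hn⟩, hx0⟩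
          rw [not_or] at hn
          rcases pos_cases hL 0 x with h | h | ⟨y, rfl⟩
          · exact absurd h hn.1
          · exact absurd h hn.2
          · exact ⟨y, ⟨hx, (phi_zero_neg hL y).mp hx0⟩, rfl⟩
        · rintro ⟨y, ⟨hy, hy0⟩, rfl⟩
          have := phi_not hL 0 y
          exact ⟨⟨hy, by rw [not_or]; exact this⟩, (phi_zero_neg hL y).mpr hy0⟩
      rw [c2, c3, card_image_of_injective _ hinj] at hodd
      by_contra hc
      rw [Nat.not_odd_iff_even] at hc
      exact (Nat.not_odd_iff_even.mpr (e2.add hc)) hodd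
  · rintro ⟨S, hP, hQ, hodd⟩
    refine ⟨S.image (phi L 0), ?_, ?_, ?_⟩
    · intro x hx
      obtain ⟨y, hy, rfl⟩ := mem_image.mp hx
      rw [ins_phi]
      exact mem_image_of_mem _ (hP y hy)
    · intro x hx
      obtain ⟨y, hy, rfl⟩ := mem_image.mp hx
      rw [ins_phi]
      exact mem_image_of_mem _ (hQ y hy)
    · have : (S.image (phi L 0)).filter (· < 0) = (S.filter (· < 0)).image (phi L 0) := by
        ext x
        simp only [mem_filter, mem_image]
        constructor
        · rintro ⟨⟨y, hy, rfl⟩, hx0⟩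
          exact ⟨y, ⟨hy, (phi_zero_neg hL y).mp hx0⟩, rfl⟩
        · rintro ⟨y, ⟨hy, hy0⟩, rfl⟩
          exact ⟨⟨y, hy, rfl⟩, (phi_zero_neg hL y).mpr hy0⟩
      rw [this, card_image_of_injective _ hinj]
      exact hodd

theorem surr_of_m {P Q : Pat L} (hP : P.m (-1) = 0) (hQ : Q.m (-1) = 0) : Surr P Q := by
  classical
  have hP' : P.m 0 = -1 := by rw [← hP, P.inv]
  have hQ' : Q.m 0 = -1 := by rw [← hQ, Q.inv]
  refine ⟨{-1, 0}, ?_, ?_, ?_⟩
  · intro x hx
    rcases mem_insert.mp hx with rfl | hx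
    · rw [hP]; simp
    · rw [mem_singleton.mp hx, hP']; simp
  · intro x hx
    rcases mem_insert.mp hx with rfl | hx
    · rw [hQ]; simp
    · rw [mem_singleton.mp hx, hQ']; simp
  · have : (({-1, 0} : Finset ℤ).filter (· < 0)) = {-1} := by decide
    rw [this, card_singleton]
    exact odd_one

theorem not_surr_two {P Q : Pat 2} (hP : P.m 0 = 1) : ¬ Surr P Q := by
  rintro ⟨S, h1, _, h3⟩
  have h0 : ∀ x : ℤ, Cg 2 x 0 → P.m x = x + 1 := by
    intro x hx
    rw [P.per_dvd hx, hP]
    ring
  have h0' : ∀ x : ℤ, Cg 2 x (0 + 1) → P.m x = x - 1 := by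
    intro x hx
    have := P.per_dvd hx
    have h5 : P.m (0 + 1) = 0 := by
      have := P.inv 0
      rw [hP] at this
      simpa using this
    rw [this, h5]
    ring
  have : Even (S.filter (· < 0)).card := by
    refine pair_even (L := 2) (i := 0) le_rfl (by norm_num) S ?_ ?_ ?_
    · intro x _
      unfold Cg
      push_cast
      omega
    · intro x hx hc
      rw [← h0 x hc]
      exact h1 x hx
    · intro x hx hc
      rw [← h0' x hc]
      exact h1 x hx
  exact (Nat.not_odd_iff_even.mpr this) h3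

open Classical in
/-- The weight: `0` if some contractible loop surrounds the gap, `1` otherwise. -/
noncomputable def W0 (L : ℕ) (P Q : Pat L) : ℂ := if Surr P Q then 0 else 1

theorem W0_of {P Q : Pat L} (h : Surr P Q) : W0 L P Q = 0 := by
  unfold W0
  exact if_pos h

theorem W0_of_not {P Q : Pat L} (h : ¬ Surr P Q) : W0 L P Q = 1 := by
  unfold W0
  exact if_neg h

theorem formProps_zero : FormProps 0 W0 where
  adj := fun L i h0 h1 P Q => by
    by_cases h : Surr (E i P) Q
    · rw [W0_of h, W0_of ((surr_E h0 h1 P Q).mp h)]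
    · rw [W0_of_not h, W0_of_not (fun h' => h ((surr_E h0 h1 P Q).mpr h'))]
  ins0 := fun L P Q => by
    by_cases h : Surr P Q
    · rw [W0_of h, W0_of ((surr_ins0 P Q).mpr h)]
    · rw [W0_of_not h, W0_of_not (fun h' => h ((surr_ins0 P Q).mp h'))]
  insm := fun L P Q => by
    have : Surr (ins (-1) P) (ins (-1) Q) :=
      surr_of_m (by rw [ins_self]; norm_num) (by rw [ins_self]; norm_num)
    rw [zero_mul, W0, if_pos this]
  two_left := fun P Q h => by
    rw [W0, if_neg (not_surr_two h)]
  two_right := fun P Q h => by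
    rw [W0, if_neg]
    rw [surr_comm]
    exact not_surr_two h
  two_base := fun P Q hP hQ => by
    have : Surr P Q := by
      refine surr_of_m ?_ ?_
      · rw [← hP, P.inv]
      · rw [← hQ, Q.inv]
    rw [W0, if_pos this]

end Pool.Agent.H15.Exact
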