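import Pool.Agent.H15.Exact.Two
import Pool.Agent.H93.EX.Hom4

/-!
# Project EXACT, one-arm formula: the pairing as a symmetric polynomial, and its value at `1`
-/

set_option autoImplicit false

open Finset

namespace Pool.Agent.H15.Exact

open H56.EX
open scoped Classical

variable {κ τ : ℂ} {Φ Φ' : ∀ L : ℕ, Pat L → (ℕ → ℂ) → ℂ} {W : ∀ L : ℕ, Pat L → Pat L → ℂ}

/-- the components as multivariate polynomials -/
noncomputable def QP.pol (h : QP κ Φ) (L : ℕ) (P : Pat L) : MvPolynomial (Fin L) ℂ :=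
  Classical.choose (h.mv L P)

theorem QP.eval_pol (h : QP κ Φ) (L : ℕ) (P : Pat L) (s : ℕ → ℂ) :
    MvPolynomial.eval (fun k : Fin L => s k) (h.pol L P) = Φ L P s :=
  (Classical.choose_spec (h.mv L P) s).symm

/-- the pairing as a polynomial -/
noncomputable def GP (h : QP κ Φ) (h' : QP (κ ^ 2) Φ') (W : ∀ L : ℕ, Pat L → Pat L → ℂ)
    (L : ℕ) : MvPolynomial (Fin L) ℂ :=
  ∑ P, ∑ Q, MvPolynomial.C (W L P Q) * (h'.pol L P * h.pol L Q)

theorem eval_GP (h : QP κ Φ) (h' : QP (κ ^ 2) Φ') (L : ℕ) (s : ℕ → ℂ) :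
    MvPolynomial.eval (fun k : Fin L => s k) (GP h h' W L) = Gv W Φ' Φ L s := by
  unfold GP Gv
  rw [map_sum, bf_apply]
  refine sum_congr rfl fun P _ => ?_
  rw [map_sum]
  refine sum_congr rfl fun Q _ => ?_
  rw [map_mul, map_mul, MvPolynomial.eval_C, h.eval_pol, h'.eval_pol]
  rfl

/-- extension of a finite sequence -/
noncomputable def ex (L : ℕ) (z : Fin L → ℂ) : ℕ → ℂ := fun n => if h : n < L then z ⟨n, h⟩ else 0

theorem ex_fin (L : ℕ) (z : Fin L → ℂ) : (fun k : Fin L => ex L z k) = z := by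
  funext k
  unfold ex
  rw [dif_pos k.2]

theorem eval_GP' (h : QP κ Φ) (h' : QP (κ ^ 2) Φ') (L : ℕ) (z : Fin L → ℂ) :
    MvPolynomial.eval z (GP h h' W L) = Gv W Φ' Φ L (ex L z) := by
  rw [← eval_GP h h', ex_fin]

theorem ex_comp_swap (L : ℕ) (z : Fin L → ℂ) (n : ℕ) (hn : n + 1 < L) :
    z ∘ Equiv.swap (⟨n, by omega⟩ : Fin L) ⟨n + 1, hn⟩ =
      fun k : Fin L => (ex L z ∘ Equiv.swap n (n + 1)) k := by
  funext k
  simp only [Function.comp_apply]
  by_cases h1 : k = ⟨n, by omega⟩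
  · subst h1
    rw [Equiv.swap_apply_left, Equiv.swap_apply_left]
    unfold ex
    rw [dif_pos hn]
  by_cases h2 : k = ⟨n + 1, hn⟩
  · subst h2
    rw [Equiv.swap_apply_right, Equiv.swap_apply_right]
    unfold ex
    rw [dif_pos]
  · rw [Equiv.swap_apply_of_ne_of_ne h1 h2, Equiv.swap_apply_of_ne_of_ne]
    · unfold ex
      rw [dif_pos k.2]
    · intro h
      exact h1 (Fin.ext h)
    · intro h
      exact h2 (Fin.ext h)

theorem GP_swap (h : QP κ Φ) (h' : QP (κ ^ 2) Φ') (hW : FormProps τ W) (L : ℕ) (n : ℕ)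
    (hn : n + 1 < L) (z : Fin L → ℂ) :
    MvPolynomial.eval (z ∘ Equiv.swap (⟨n, by omega⟩ : Fin L) ⟨n + 1, hn⟩) (GP h h' W L) =
      MvPolynomial.eval z (GP h h' W L) := by
  set i : Fin L := ⟨n, by omega⟩ with hi
  set j : Fin L := ⟨n + 1, hn⟩ with hj
  set σ := Equiv.swap i j with hσ
  have hij : i ≠ j := by
    intro h0
    have := congrArg Fin.val h0
    simp [hi, hj] at this
  have h1 : ((MvPolynomial.C κ * MvPolynomial.X j - MvPolynomial.C (κ ^ 2) * MvPolynomial.X i) *
      (MvPolynomial.C κ * MvPolynomial.X i - MvPolynomial.C (κ ^ 2) * MvPolynomial.X j)) *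
      (MvPolynomial.rename σ (GP h h' W L) - GP h h' W L) = 0 := by
    apply MvPolynomial.funext
    intro z
    rw [map_mul, map_mul, map_sub, map_sub, map_sub, map_mul, map_mul, map_mul, map_mul,
      MvPolynomial.eval_C, MvPolynomial.eval_C, MvPolynomial.eval_X, MvPolynomial.eval_X,
      MvPolynomial.eval_rename, map_zero]
    have e1 : MvPolynomial.eval (z ∘ σ) (GP h h' W L) =
        Gv W Φ' Φ L (ex L z ∘ Equiv.swap n (n + 1)) := by
      rw [hσ, ex_comp_swap L z n hn]
      exact eval_GP h h' L _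
    rw [e1, eval_GP' h h' L z]
    have e2 := Gv_swap h h' hW L (ex L z) n hn
    have e3 : ex L z n = z i := by unfold ex; rw [dif_pos]
    have e4 : ex L z (n + 1) = z j := by unfold ex; rw [dif_pos]
    rw [e3, e4] at e2
    exact e2
  have h2 : MvPolynomial.rename σ (GP h h' W L) - GP h h' W L = 0 := by
    rcases mul_eq_zero.mp h1 with h3 | h3
    · exfalso
      rcases mul_eq_zero.mp h3 with h4 | h4
      · have h5 := congrArg (MvPolynomial.eval (Function.update (fun _ => (0 : ℂ)) j 1)) h4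
        rw [map_sub, map_mul, map_mul, MvPolynomial.eval_C, MvPolynomial.eval_C,
          MvPolynomial.eval_X, MvPolynomial.eval_X, Function.update_self,
          Function.update_of_ne hij, map_zero] at h5
        exact h.ne_zero (by linear_combination h5)
      · have h5 := congrArg (MvPolynomial.eval (Function.update (fun _ => (0 : ℂ)) i 1)) h4
        rw [map_sub, map_mul, map_mul, MvPolynomial.eval_C, MvPolynomial.eval_C,
          MvPolynomial.eval_X, MvPolynomial.eval_X, Function.update_self,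
          Function.update_of_ne hij.symm, map_zero] at h5
        exact h.ne_zero (by linear_combination h5)
    · exact h3
  have h3 := congrArg (MvPolynomial.eval z) h2
  rw [map_sub, MvPolynomial.eval_rename, map_zero] at h3
  exact sub_eq_zero.mp h3

theorem GP_perm (h : QP κ Φ) (h' : QP (κ ^ 2) Φ') (hW : FormProps τ W) :
    ∀ (L : ℕ) (σ : Equiv.Perm (Fin L)) (z : Fin L → ℂ),
    MvPolynomial.eval (z ∘ σ) (GP h h' W L) = MvPolynomial.eval z (GP h h' W L) := by
  intro L
  rcases L with _ | m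
  · intro σ z
    congr 2
    funext k
    exact k.elim0
  · intro σ
    have hσ : σ ∈ Submonoid.closure (Set.range fun i : Fin m => Equiv.swap i.castSucc i.succ) := by
      rw [Equiv.Perm.mclosure_swap_castSucc_succ]
      trivial
    induction hσ using Submonoid.closure_induction with
    | mem x hx =>
      obtain ⟨i, rfl⟩ := hx
      intro z
      exact GP_swap h h' hW (m + 1) i (by omega) z
    | one =>
      intro z
      rfl
    | mul a b _ _ ha hb =>
      intro z
      have : z ∘ (a * b : Equiv.Perm (Fin (m + 1))) = (z ∘ a) ∘ b := rfl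
      rw [this, hb, ha]

/-- the normalising constants -/
noncomputable def cc : ℕ → ℂ
  | 0 => 1
  | n + 1 => 3 * 81 ^ n * cc n

theorem cc_eq (n : ℕ) : cc n = 3 ^ (n * (2 * n - 1)) := by
  induction n with
  | zero => simp [cc]
  | succ n ih =>
    rw [cc, ih]
    have e1 : (81 : ℂ) ^ n = 3 ^ (4 * n) := by
      rw [pow_mul]; norm_num
    rw [e1, ← pow_succ', ← pow_add]
    congr 1
    rcases n with _ | n
    · rfl
    · have a1 : 2 * (n + 1) - 1 = 2 * n + 1 := by omega
      have a2 : 2 * (n + 1 + 1) - 1 = 2 * n + 3 := by omega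
      rw [a1, a2]
      ring

/-- the normalised family of polynomials -/
noncomputable def GG (h : QP κ Φ) (h' : QP (κ ^ 2) Φ') (W : ∀ L : ℕ, Pat L → Pat L → ℂ) :
    (n : ℕ) → MvPolynomial (Fin (2 * n)) ℂ
  | 0 => 1
  | n + 1 => MvPolynomial.C (cc (n + 1)) * GP h h' W (2 * (n + 1))

theorem scons_cons (N : ℕ) (a b : ℂ) (z : Fin N → ℂ) :
    (fun k : Fin (N + 2) => scons a (scons b (ex N z)) k) =
      (Fin.cons a (Fin.cons b z : Fin (N + 1) → ℂ) : Fin (N + 2) → ℂ) := by
  funext k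
  refine Fin.cases rfl (fun k => ?_) k
  refine Fin.cases rfl (fun k => ?_) k
  change ex N z k = z k
  unfold ex
  rw [dif_pos k.2]

theorem GG_wheel (h : QP κ Φ) (h' : QP (κ ^ 2) Φ') (hW : FormProps τ W) (n : ℕ) (w : ℂ)
    (z : Fin (2 * n) → ℂ) :
    MvPolynomial.eval (Fin.cons (κ ^ 2 * w) (Fin.cons w z : Fin (2 * n + 1) → ℂ)
        : Fin (2 * n + 2) → ℂ) (GG h h' W (n + 1))
      = 3 * 1 * κ ^ 2 * w ^ 2 * (∏ j, (z j - κ * w) ^ 4) *
        MvPolynomial.eval z (GG h h' W n) := by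
  have hk := h.kk
  have e1 : MvPolynomial.eval (Fin.cons (κ ^ 2 * w) (Fin.cons w z : Fin (2 * n + 1) → ℂ)
        : Fin (2 * n + 2) → ℂ) (GG h h' W (n + 1)) =
      cc (n + 1) * Gv W Φ' Φ (2 * n + 2) (scons (κ ^ 2 * w) (scons w (ex (2 * n) z))) := by
    rw [← scons_cons, ← eval_GP h h']
    change MvPolynomial.eval _ (MvPolynomial.C (cc (n + 1)) * GP h h' W (2 * (n + 1))) = _
    rw [map_mul, MvPolynomial.eval_C]
    rfl
  rw [e1]
  rcases n with _ | n
  · rw [show 2 * 0 + 2 = 2 from rfl, Gv_two h h' hW]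
    have e2 : (∏ j : Fin (2 * 0), (z j - κ * w) ^ 4) = 1 := Fin.prod_univ_zero _
    rw [e2]
    change _ = _ * MvPolynomial.eval z 1
    rw [map_one, cc, cc]
    simp only [scons]
    linear_combination (3 * w ^ 2 * (κ ^ 2 - κ + 1) + (τ - 1) * w ^ 2 * (κ ^ 2 - κ + 1)) * hk
  · rw [Gv_wheel h h' hW (by omega)]
    have e2 : MvPolynomial.eval z (GG h h' W (n + 1)) =
        cc (n + 1) * Gv W Φ' Φ (2 * (n + 1)) (ex (2 * (n + 1)) z) := by
      rw [← eval_GP' h h']
      change MvPolynomial.eval z (MvPolynomial.C (cc (n + 1)) * GP h h' W (2 * (n + 1))) = _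
      rw [map_mul, MvPolynomial.eval_C]
    have e3 : ∏ j ∈ Finset.range (2 * (n + 1)), (ex (2 * (n + 1)) z j - κ * w) ^ 4 =
        ∏ j, (z j - κ * w) ^ 4 := by
      rw [Finset.prod_range]
      refine prod_congr rfl fun j _ => ?_
      unfold ex
      rw [dif_pos j.2]
    rw [e2, e3, cc]
    have e4 : (9 : ℂ) ^ (2 * (n + 1)) = 81 ^ (n + 1) := by
      rw [pow_mul]; norm_num
    rw [e4]
    have e5 : (81 : ℂ) ^ (n + 1) ≠ 0 := pow_ne_zero _ (by norm_num)
    field_simp

theorem GG_top (h : QP κ Φ) (h' : QP (κ ^ 2) Φ') (hW : FormProps τ W) (n : ℕ)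
    (z : Fin (2 * n) → ℂ) : ∃ p : Polynomial (Polynomial ℂ),
      p.natDegree ≤ 2 * (2 * n + 1) ∧ (p.coeff (2 * (2 * n + 1))).natDegree ≤ 2 * (2 * n) ∧
      (p.coeff (2 * (2 * n + 1))).coeff (2 * (2 * n)) =
        1 * (τ + 2) * MvPolynomial.eval z (GG h h' W n) ∧
      ∀ x y : ℂ, (p.eval (Polynomial.C x)).eval y = MvPolynomial.eval
        (Fin.cons x (Fin.cons y z : Fin (2 * n + 1) → ℂ) : Fin (2 * n + 2) → ℂ)
          (GG h h' W (n + 1)) := by
  have e1 : ∀ x y : ℂ, MvPolynomial.eval (Fin.cons x (Fin.cons y z : Fin (2 * n + 1) → ℂ)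
        : Fin (2 * n + 2) → ℂ) (GG h h' W (n + 1)) =
      cc (n + 1) * Gv W Φ' Φ (2 * n + 2) (scons x (scons y (ex (2 * n) z))) := by
    intro x y
    rw [← scons_cons, ← eval_GP h h']
    change MvPolynomial.eval _ (MvPolynomial.C (cc (n + 1)) * GP h h' W (2 * (n + 1))) = _
    rw [map_mul, MvPolynomial.eval_C]
    rfl
  rcases n with _ | n
  · have hc : (Polynomial.C (Polynomial.C (τ + 2)) * Polynomial.X ^ 2 +
      (Polynomial.C (Polynomial.C (τ + 5) * Polynomial.X) * Polynomial.X +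
        Polynomial.C (Polynomial.C (τ + 2) * Polynomial.X ^ 2)) : Polynomial (Polynomial ℂ)).coeff
          (2 * (2 * 0 + 1)) = Polynomial.C (τ + 2) := by
      rw [show 2 * (2 * 0 + 1) = 2 from rfl, Polynomial.coeff_add, Polynomial.coeff_add,
        Polynomial.coeff_C_mul_X_pow, if_pos rfl, Polynomial.coeff_C_mul,
        Polynomial.coeff_X_of_ne_one (by norm_num), Polynomial.coeff_C, if_neg (by norm_num),
        mul_zero, add_zero, add_zero]
    refine ⟨Polynomial.C (Polynomial.C (τ + 2)) * Polynomial.X ^ 2 +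
      (Polynomial.C (Polynomial.C (τ + 5) * Polynomial.X) * Polynomial.X +
        Polynomial.C (Polynomial.C (τ + 2) * Polynomial.X ^ 2)), ?_, ?_, ?_, ?_⟩
    · rw [show 2 * (2 * 0 + 1) = 2 from rfl]
      compute_degree
    · rw [hc, Polynomial.natDegree_C]
    · rw [hc]
      change (Polynomial.C (τ + 2)).coeff 0 = 1 * (τ + 2) * MvPolynomial.eval z 1
      rw [map_one, Polynomial.coeff_C_zero, one_mul, mul_one]
    · intro x y
      rw [e1, show 2 * 0 + 2 = 2 from rfl, Gv_two h h' hW, cc, cc]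
      simp only [scons, Polynomial.eval_add, Polynomial.eval_mul, Polynomial.eval_pow,
        Polynomial.eval_C, Polynomial.eval_X]
      ring
  · obtain ⟨p, h1, h2, h3, h4⟩ := G_top h h' hW (N := 2 * (n + 1)) (by omega) (ex (2 * (n + 1)) z)
    have e2 : MvPolynomial.eval z (GG h h' W (n + 1)) =
        cc (n + 1) * Gv W Φ' Φ (2 * (n + 1)) (ex (2 * (n + 1)) z) := by
      rw [← eval_GP' h h']
      change MvPolynomial.eval z (MvPolynomial.C (cc (n + 1)) * GP h h' W (2 * (n + 1))) = _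
      rw [map_mul, MvPolynomial.eval_C]
    refine ⟨Polynomial.C (Polynomial.C (cc (n + 1 + 1))) * p, ?_, ?_, ?_, ?_⟩
    · exact (Polynomial.natDegree_C_mul_le _ _).trans h2
    · rw [Polynomial.coeff_C_mul]
      exact (Polynomial.natDegree_C_mul_le _ _).trans h3
    · rw [Polynomial.coeff_C_mul, Polynomial.coeff_C_mul, h4, e2, cc]
      have e4 : (9 : ℂ) ^ (2 * (n + 1)) = 81 ^ (n + 1) := by
        rw [pow_mul]; norm_num
      rw [e4]
      have e5 : (81 : ℂ) ^ (n + 1) ≠ 0 := pow_ne_zero _ (by norm_num)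
      field_simp
    · intro x y
      rw [e1, ← h1]
      change ev x y (Polynomial.C (Polynomial.C (cc (n + 1 + 1))) * p) = _
      rw [map_mul, ev_CC]

end Pool.Agent.H15.Exact
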