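import Pool.Agent.H15.Exact.Bil

/-!
# Project EXACT, one-arm formula: symmetry and wheel recursion
-/

set_option autoImplicit false

open Finset

namespace Pool.Agent.H15.Exact

open H56.EX

/-- the vector of components -/
def vec (Φ : ∀ L : ℕ, Pat L → (ℕ → ℂ) → ℂ) (L : ℕ) (s : ℕ → ℂ) : Pat L → ℂ := fun P => Φ L P s

/-- The pairing of the two vectors. -/
noncomputable def Gv (W : ∀ L : ℕ, Pat L → Pat L → ℂ) (Φ' Φ : ∀ L : ℕ, Pat L → (ℕ → ℂ) → ℂ)
    (L : ℕ) (s : ℕ → ℂ) : ℂ := bf (W L) (vec Φ' L s) (vec Φ L s)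

variable {κ τ : ℂ} {Φ Φ' : ∀ L : ℕ, Pat L → (ℕ → ℂ) → ℂ} {W : ∀ L : ℕ, Pat L → Pat L → ℂ}

theorem QP.cube (h : QP κ Φ) : κ ^ 3 = 1 := by
  linear_combination (κ - 1) * h.kk

theorem QP.ne_zero (h : QP κ Φ) : κ ≠ 0 := by
  intro h0
  have := h.cube
  rw [h0] at this
  norm_num at this

theorem QP.ne_one (h : QP κ Φ) : κ ≠ 1 := by
  intro h0
  have := h.kk
  rw [h0] at this
  norm_num at this

theorem QP.exch_vec (h : QP κ Φ) (L : ℕ) (s : ℕ → ℂ) (n : ℕ) (hn : n + 1 < L) :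
    (κ * s (n + 1) - κ ^ 2 * s n) • vec Φ L (s ∘ Equiv.swap n (n + 1)) =
      (κ * s n - κ ^ 2 * s (n + 1)) • vec Φ L s + (s n - s (n + 1)) • eL L n (vec Φ L s) := by
  funext P
  have h1 := h.exch L P s n hn
  rw [eL_eq]
  simp only [Pi.smul_apply, Pi.add_apply, smul_eq_mul]
  exact h1

theorem QP.arc_vec (h : QP κ Φ) {L : ℕ} (hL : 2 ≤ L) (w : ℂ) (z : ℕ → ℂ) :
    vec Φ (L + 2) (scons (κ ^ 2 * w) (scons w z)) =
      (-κ * w * (∏ j ∈ Finset.range L, (z j - κ * w) ^ 2) / 3 ^ L) • i0 L (vec Φ L z) := by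
  funext P
  by_cases hP : P.m 0 = 1
  · obtain ⟨Q, rfl⟩ := exists_ins hL 0 P (by simpa using hP)
    simp only [Pi.smul_apply, smul_eq_mul, i0_ins]
    exact h.arc L Q w z
  · simp only [Pi.smul_apply, smul_eq_mul, i0_of_ne _ hP, mul_zero]
    exact h.arc_zero (L + 2) P _ (by simp [scons]) hP

theorem Gv_swap (h : QP κ Φ) (h' : QP (κ ^ 2) Φ') (hW : FormProps τ W) (L : ℕ) (s : ℕ → ℂ)
    (n : ℕ) (hn : n + 1 < L) :
    ((κ * s (n + 1) - κ ^ 2 * s n) * (κ * s n - κ ^ 2 * s (n + 1))) *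
      (Gv W Φ' Φ L (s ∘ Equiv.swap n (n + 1)) - Gv W Φ' Φ L s) = 0 := by
  have e1 := h.exch_vec L s n hn
  have e2 := h'.exch_vec L s n hn
  have hk := h.kk
  have hk4 : κ ^ 4 = κ := by linear_combination κ * h.cube
  set x := s n with hx
  set y := s (n + 1) with hy
  set u := vec Φ' L s with hu
  set v := vec Φ L s with hv
  set u' := vec Φ' L (s ∘ Equiv.swap n (n + 1)) with hu'
  set v' := vec Φ L (s ∘ Equiv.swap n (n + 1)) with hv'
  have hadj : ∀ a b : Pat L → ℂ, bf (W L) (eL L n a) b = bf (W L) a (eL L n b) :=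
    fun a b => bf_eL (fun P Q => hW.adj L n (by omega) (by omega) P Q) a b
  have h3 := congrArg₂ (fun a b => bf (W L) a b) e2 e1
  simp only [map_add, map_smul, LinearMap.add_apply, LinearMap.smul_apply, smul_eq_mul, hadj,
    eL_idem] at h3
  change _ * (bf (W L) u' v' - bf (W L) u v) = 0
  rw [show (κ ^ 2) ^ 2 = κ by rw [← pow_mul]; exact hk4] at h3
  linear_combination (-1) * h3 - (x - y) * (bf (W L) u (eL L n v)) * (x - y) * hk

theorem Gv_wheel (h : QP κ Φ) (h' : QP (κ ^ 2) Φ') (hW : FormProps τ W) {L : ℕ} (hL : 2 ≤ L)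
    (w : ℂ) (z : ℕ → ℂ) :
    Gv W Φ' Φ (L + 2) (scons (κ ^ 2 * w) (scons w z)) =
      κ ^ 2 * w ^ 2 * (∏ j ∈ Finset.range L, (z j - κ * w) ^ 4) / 9 ^ L * Gv W Φ' Φ L z := by
  have hk := h.kk
  have hk3 := h.cube
  have hk4 : κ ^ 4 = κ := by linear_combination κ * h.cube
  unfold Gv
  rw [h.arc_vec hL w z]
  rcases eq_or_ne w 0 with rfl | hw
  · simp
  have e1 := h'.exch_vec (L + 2) (scons (κ ^ 2 * w) (scons w z)) 0 (by omega)
  have e2 : (scons (κ ^ 2 * w) (scons w z)) ∘ Equiv.swap 0 (0 + 1) =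
      scons ((κ ^ 2) ^ 2 * (κ ^ 2 * w)) (scons (κ ^ 2 * w) z) := by
    rw [zero_add, scons_swap01]
    congr 1
    linear_combination (-w) * (κ ^ 3 + 1) * hk3
  rw [e2, h'.arc_vec hL] at e1
  have e3 : (κ ^ 2 - 1) * w ≠ 0 := by
    refine mul_ne_zero ?_ hw
    intro h0
    have : κ = -2 := by linear_combination hk - h0
    rw [this] at hk
    norm_num at hk
  have hadj : ∀ a b : Pat (L + 2) → ℂ,
      bf (W (L + 2)) (eL (L + 2) 0 a) b = bf (W (L + 2)) a (eL (L + 2) 0 b) :=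
    fun a b => bf_eL (fun P Q => hW.adj (L + 2) 0 (by omega) (by omega) P Q) a b
  set u := vec Φ' (L + 2) (scons (κ ^ 2 * w) (scons w z)) with hu
  have e4 : eL (L + 2) 0 u = (-κ ^ 2 * (κ ^ 2 * w) *
      (∏ j ∈ Finset.range L, (z j - κ ^ 2 * (κ ^ 2 * w)) ^ 2) / 3 ^ L) •
        i0 L (vec Φ' L z) := by
    have a1 : κ ^ 2 * scons (κ ^ 2 * w) (scons w z) (0 + 1) -
        (κ ^ 2) ^ 2 * scons (κ ^ 2 * w) (scons w z) 0 = (κ ^ 2 - 1) * w := by
      simp only [scons]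
      linear_combination (-w) * (κ ^ 3 + 1) * hk3
    have a2 : κ ^ 2 * scons (κ ^ 2 * w) (scons w z) 0 -
        (κ ^ 2) ^ 2 * scons (κ ^ 2 * w) (scons w z) (0 + 1) = 0 := by
      simp only [scons]
      ring
    have a3 : scons (κ ^ 2 * w) (scons w z) 0 - scons (κ ^ 2 * w) (scons w z) (0 + 1) =
        (κ ^ 2 - 1) * w := by
      simp only [scons]
      ring
    rw [a1, a2, a3, zero_smul, zero_add] at e1
    exact (smul_right_injective _ e3 e1).symm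
  have e5 : i0 L (vec Φ L z) = eL (L + 2) 0 (i0 L (vec Φ L z)) := (eL_i0 _).symm
  rw [map_smul, e5, ← hadj, e4, map_smul, LinearMap.smul_apply, bf_i0 hW]
  have e6 : ∀ j, z j - κ ^ 2 * (κ ^ 2 * w) = z j - κ * w := by
    intro j
    linear_combination (-w) * hk4
  simp only [e6, smul_eq_mul]
  have e7 : (∏ j ∈ Finset.range L, (z j - κ * w) ^ 4) =
      (∏ j ∈ Finset.range L, (z j - κ * w) ^ 2) * (∏ j ∈ Finset.range L, (z j - κ * w) ^ 2) := by
    rw [← prod_mul_distrib]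
    exact prod_congr rfl fun j _ => by ring
  have e8 : (9 : ℂ) ^ L = 3 ^ L * 3 ^ L := by
    rw [← mul_pow]; norm_num
  rw [e7, e8]
  have h3 : (3 : ℂ) ^ L ≠ 0 := pow_ne_zero _ (by norm_num)
  field_simp
  linear_combination ((∏ j ∈ Finset.range L, (z j - κ * w) ^ 2) ^ 2 *
    bf (W L) (vec Φ' L z) (vec Φ L z) * κ ^ 2) * hk3

end Pool.Agent.H15.Exact
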