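import Pool.Agent.H15.Exact.Biv

/-!
# Project EXACT, one-arm formula: the top coefficient of the vector
-/

set_option autoImplicit false

open Finset

namespace Pool.Agent.H15.Exact

open H56.EX
open scoped Classical

/-- the parameters `y, z_0, …, z_{k-2}, x, z_{k-1}, …` -/
def ar (k : ℕ) (x y : ℂ) (z : ℕ → ℂ) : ℕ → ℂ := fun j =>
  if j = 0 then y else if j < k then z (j - 1) else if j = k then x else z (j - 2)

/-- the same parameters as polynomials -/
noncomputable def arB (k : ℕ) (z : ℕ → ℂ) : ℕ → BV := fun j =>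
  if j = 0 then Polynomial.C Polynomial.X else if j < k then Polynomial.C (Polynomial.C (z (j - 1)))
    else if j = k then Polynomial.X else Polynomial.C (Polynomial.C (z (j - 2)))

/-- the parameters `x, y, z` as polynomials -/
noncomputable def s0B (z : ℕ → ℂ) : ℕ → BV
  | 0 => Polynomial.X
  | 1 => Polynomial.C Polynomial.X
  | n + 2 => Polynomial.C (Polynomial.C (z n))

theorem ev_arB (k : ℕ) (z : ℕ → ℂ) (x y : ℂ) : (fun n => ev x y (arB k z n)) = ar k x y z := by
  funext n
  unfold arB ar
  split_ifs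
  · exact ev_CX x y
  · exact ev_CC x y _
  · exact ev_X x y
  · exact ev_CC x y _

theorem ev_s0B (z : ℕ → ℂ) (x y : ℂ) : (fun n => ev x y (s0B z n)) = scons x (scons y z) := by
  funext n
  rcases n with _ | _ | n
  · exact ev_X x y
  · exact ev_CX x y
  · exact ev_CC x y _

theorem ar_swap {k : ℕ} (hk : 1 ≤ k) (x y : ℂ) (z : ℕ → ℂ) :
    (ar (k + 1) x y z) ∘ Equiv.swap k (k + 1) = ar k x y z := by
  funext j
  simp only [Function.comp_apply]
  by_cases h1 : j = k
  · subst h1
    rw [Equiv.swap_apply_left]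
    unfold ar
    rw [if_neg (by omega), if_neg (by omega), if_pos rfl, if_neg (by omega), if_neg (by omega),
      if_pos rfl]
  by_cases h2 : j = k + 1
  · subst h2
    rw [Equiv.swap_apply_right]
    unfold ar
    rw [if_neg (by omega), if_pos (by omega), if_neg (by omega), if_neg (by omega),
      if_neg (by omega)]
    congr 1
  · rw [Equiv.swap_apply_of_ne_of_ne h1 h2]
    unfold ar
    by_cases h3 : j = 0
    · rw [if_pos h3, if_pos h3]
    · rw [if_neg h3, if_neg h3]
      by_cases h4 : j < k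
      · rw [if_pos (by omega), if_pos h4]
      · rw [if_neg (by omega), if_neg (by omega), if_neg h4, if_neg h1]

theorem ar_update {k : ℕ} (hk : 1 ≤ k) (x y : ℂ) (z : ℕ → ℂ) :
    ar k x y z = Function.update (ar k 0 y z) k x := by
  funext j
  by_cases h1 : j = k
  · subst h1
    rw [Function.update_self]
    unfold ar
    rw [if_neg (by omega), if_neg (by omega), if_pos rfl]
  · rw [Function.update_of_ne h1]
    unfold ar
    by_cases h3 : j = 0
    · rw [if_pos h3, if_pos h3]
    · rw [if_neg h3, if_neg h3]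
      by_cases h4 : j < k
      · rw [if_pos h4, if_pos h4]
      · rw [if_neg h4, if_neg h1, if_neg h4, if_neg h1]

theorem ar_one (x y : ℂ) (z : ℕ → ℂ) : ar 1 x y z = scons y (scons x z) := by
  funext j
  rcases j with _ | _ | j
  · rfl
  · rfl
  · unfold ar
    rw [if_neg (by omega), if_neg (by omega), if_neg (by omega)]
    rfl

/-- the product `t_{N-m+1} ⋯ t_N` -/
noncomputable def chn (κ : ℂ) (L N : ℕ) : ℕ → (Pat L → ℂ) →ₗ[ℂ] (Pat L → ℂ)
  | 0 => LinearMap.id
  | m + 1 => (tb κ L ((N - m : ℕ) : ℤ)).comp (chn κ L N m)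

/-- the operator moving the first strand around the cylinder to the second place -/
noncomputable def Sop (κ : ℂ) (N : ℕ) : (Pat (N + 2) → ℂ) →ₗ[ℂ] (Pat (N + 2) → ℂ) :=
  (chn κ (N + 2) N N).comp (rI (N + 2))

theorem coeff_eval {F : BV} {d : ℕ} (hd : F.natDegree ≤ d) (c : ℂ) (m : ℕ) :
    (F.eval (Polynomial.C c * Polynomial.X)).coeff m =
      ∑ a ∈ range (d + 1), c ^ a * (if a ≤ m then cf a (m - a) F else 0) := by
  rw [Polynomial.eval_eq_sum_range' (lt_of_le_of_lt hd (Nat.lt_succ_self d)),
    Polynomial.finsetSum_coeff]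
  refine sum_congr rfl fun a _ => ?_
  have e1 : F.coeff a * (Polynomial.C c * Polynomial.X) ^ a =
      Polynomial.C (c ^ a) * (F.coeff a * Polynomial.X ^ a) := by
    rw [mul_pow, Polynomial.C_pow]
    ring
  rw [e1, Polynomial.coeff_C_mul, Polynomial.coeff_mul_X_pow']
  rfl

theorem eval_eval (F : BV) (c w : ℂ) :
    (F.eval (Polynomial.C c * Polynomial.X)).eval w = ev (c * w) w F := by
  have h1 : ev (c * w) w F = Polynomial.eval₂ (Polynomial.evalRingHom w) (c * w) F := by
    rw [Polynomial.eval₂_evalRingHom]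
    rfl
  have h2 := Polynomial.hom_eval₂ F (RingHom.id (Polynomial ℂ)) (Polynomial.evalRingHom w)
    (Polynomial.C c * Polynomial.X)
  rw [RingHom.comp_id] at h2
  rw [h1]
  have h3 : Polynomial.evalRingHom w (Polynomial.C c * Polynomial.X) = c * w := by simp
  rw [h3] at h2
  exact h2

section

variable {κ : ℂ} {Φ : ∀ L : ℕ, Pat L → (ℕ → ℂ) → ℂ}

theorem prod_deg (κ : ℂ) (N : ℕ) (z : ℕ → ℂ) :
    (∏ j ∈ range N, (Polynomial.C (z j) - Polynomial.C κ * Polynomial.X) ^ 2).natDegree ≤ N * 2 ∧
      (∏ j ∈ range N, (Polynomial.C (z j) - Polynomial.C κ * Polynomial.X) ^ 2).coeff (N * 2) =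
        (κ ^ 2) ^ N := by
  have h1 : ∀ j, ((Polynomial.C (z j) - Polynomial.C κ * Polynomial.X) ^ 2).natDegree ≤ 2 := by
    intro j
    have h2 : (Polynomial.C (z j) - Polynomial.C κ * Polynomial.X).natDegree ≤ 1 := by
      compute_degree
    exact (Polynomial.natDegree_pow_le_of_le 2 h2)
  constructor
  · refine (Polynomial.natDegree_prod_le _ _).trans ?_
    refine (sum_le_sum fun j _ => h1 j).trans ?_
    rw [sum_const, card_range, smul_eq_mul]
  · have h3 := Polynomial.coeff_prod_of_natDegree_le (range N)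
      (fun j => (Polynomial.C (z j) - Polynomial.C κ * Polynomial.X) ^ 2) 2 (fun j _ => h1 j)
    rw [card_range] at h3
    rw [h3]
    have h4 : ∀ j, ((Polynomial.C (z j) - Polynomial.C κ * Polynomial.X) ^ 2).coeff 2 = κ ^ 2 := by
      intro j
      have e : (Polynomial.C (z j) - Polynomial.C κ * Polynomial.X) ^ 2 =
          Polynomial.C (κ ^ 2) * Polynomial.X ^ 2 +
            (Polynomial.C (-2 * z j * κ) * Polynomial.X + Polynomial.C (z j ^ 2)) := by
        simp only [map_mul, map_pow, map_neg, map_ofNat]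
        ring
      rw [e, Polynomial.coeff_add, Polynomial.coeff_add, Polynomial.coeff_C_mul_X_pow,
        Polynomial.coeff_C_mul, Polynomial.coeff_X_of_ne_one (by norm_num), Polynomial.coeff_C]
      norm_num
    rw [prod_congr rfl (fun j _ => h4 j), prod_const, card_range]

/-- The top coefficient of the vector. -/
theorem QP.top (h : QP κ Φ) {N : ℕ} (hN : 2 ≤ N) (z : ℕ → ℂ) :
    ∃ F : Pat (N + 2) → BV,
      (∀ P x y, ev x y (F P) = Φ (N + 2) P (scons x (scons y z))) ∧
      (∀ P, (F P).natDegree ≤ N + 1) ∧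
      (∀ P, ((F P).coeff (N + 1)).natDegree ≤ N) ∧
      (κ - 1) • cfv (N + 1) N F = (-κ / 3 ^ N) • (κ ^ 2 • i0 N (vec Φ N z) -
        Sop κ N (i0 N (vec Φ N z))) ∧
      eL (N + 2) 0 (Sop κ N (i0 N (vec Φ N z))) = i0 N (vec Φ N z) := by
  have hk := h.kk
  have hk3 := h.cube
  have hk0 := h.ne_zero
  set F0 : Pat (N + 2) → BV := h.FB (N + 2) (s0B z) with hF0
  set Fk : ℕ → Pat (N + 2) → BV := fun k => h.FB (N + 2) (arB k z) with hFk
  have evF0 : ∀ P x y, ev x y (F0 P) = Φ (N + 2) P (scons x (scons y z)) := by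
    intro P x y
    rw [hF0, h.ev_FB, ev_s0B]
  have evFk : ∀ k P x y, ev x y (Fk k P) = Φ (N + 2) P (ar k x y z) := by
    intro k P x y
    rw [hFk]
    simp only
    rw [h.ev_FB, ev_arB]
  -- degrees
  have degk : ∀ k, 1 ≤ k → k ≤ N + 1 → ∀ P, (Fk k P).natDegree ≤ N + 1 := by
    intro k hk1 hk2 P
    apply outer_deg
    intro y
    obtain ⟨p, hp, he⟩ := h.poly (N + 2) P (ar k 0 y z) k (by omega)
    refine ⟨p, hp, fun x => ?_⟩
    rw [evFk, ar_update hk1, he]
  have deg0 : ∀ P, (F0 P).natDegree ≤ N + 1 := by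
    intro P
    apply outer_deg
    intro y
    obtain ⟨p, hp, he⟩ := h.poly (N + 2) P (scons 0 (scons y z)) 0 (by omega)
    refine ⟨p, hp, fun x => ?_⟩
    rw [evF0, ← he x]
    congr 1
    funext n
    rcases n with _ | n <;> simp [scons, Function.update]
  have deg1 : ∀ P a, ((F0 P).coeff a).natDegree ≤ N + 1 := by
    intro P a
    apply inner_deg
    intro x
    obtain ⟨p, hp, he⟩ := h.poly (N + 2) P (scons x (scons 0 z)) 1 (by omega)
    refine ⟨p, hp, fun y => ?_⟩
    rw [evF0, ← he y]
    congr 1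
    funext n
    rcases n with _ | _ | n <;> simp [scons, Function.update]
  -- swapping the two variables
  have hsw : ∀ P, Fk 1 P = Polynomial.Bivariate.swap (F0 P) := by
    intro P
    apply bv_ext
    intro x y
    rw [evFk, swap_ev, evF0, ar_one]
  have hsw' : ∀ a b, cfv a b (Fk 1) = cfv b a F0 := by
    intro a b
    funext P
    change cf a b (Fk 1 P) = cf b a (F0 P)
    rw [hsw, swap_cf]
  -- rotation
  have hrot : ∀ P, Fk (N + 1) P = F0 (H56.EX.rot P) := by
    intro P
    apply bv_ext
    intro x y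
    rw [evFk, evF0, ← h.rot (N + 2) P (ar (N + 1) x y z)]
    apply h.congr
    intro n hn
    rcases n with _ | _ | n
    · simp [scons, ar]
    · simp [scons, ar]
    · change ar (N + 1) x y z (n + 1) = z n
      unfold ar
      rw [if_neg (by omega), if_pos (by omega)]
      congr 1
  have hrot' : ∀ a b, cfv a b (Fk (N + 1)) = rI (N + 2) (cfv a b F0) := by
    intro a b
    funext P
    rw [rI_apply]
    change cf a b (Fk (N + 1) P) = cf a b (F0 (H56.EX.rot P))
    rw [hrot]
  -- moving the strand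
  have hmove : ∀ a b, (∀ k, 1 ≤ k → k ≤ N + 1 → cfv (a + 1) b (Fk k) = 0) → ∀ m, m ≤ N →
      cfv a b (Fk (N + 1 - m)) = chn κ (N + 2) N m (cfv a b (Fk (N + 1))) := by
    intro a b hz m
    induction m with
    | zero =>
      intro _
      rfl
    | succ m ih =>
      intro hm
      have ih' := ih (by omega)
      have e1 : N + 1 - m = (N - m) + 1 := by omega
      have e2 : N + 1 - (m + 1) = N - m := by omega
      have hk1 : 1 ≤ N - m := by omega
      rw [e2]
      change _ = tb κ (N + 2) ((N - m : ℕ) : ℤ) (chn κ (N + 2) N m (cfv a b (Fk (N + 1))))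
      rw [← ih', e1]
      refine move (w := z (N - m - 1)) hk3 ?_ (hz _ (by omega) (by omega))
        (hz _ (by omega) (by omega))
      intro P x y
      have hex := h.exch (N + 2) P (ar (N - m + 1) x y z) (N - m) (by omega)
      have a1 : ar (N - m + 1) x y z (N - m + 1) = x := by
        unfold ar
        rw [if_neg (by omega), if_neg (by omega), if_pos rfl]
      have a2 : ar (N - m + 1) x y z (N - m) = z (N - m - 1) := by
        unfold ar
        rw [if_neg (by omega), if_pos (by omega)]
      rw [ar_swap hk1, a1, a2] at hex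
      rw [evFk, evFk, eL_eq]
      have a3 : (fun P' => ev x y (Fk (N - m + 1) P')) =
          fun P' => Φ (N + 2) P' (ar (N - m + 1) x y z) := by
        funext P'
        exact evFk _ _ _ _
      rw [a3]
      exact hex
  have hmove' : ∀ a b, (∀ k, 1 ≤ k → k ≤ N + 1 → cfv (a + 1) b (Fk k) = 0) →
      cfv b a F0 = Sop κ N (cfv a b F0) := by
    intro a b hz
    have h1 := hmove a b hz N le_rfl
    rw [show N + 1 - N = 1 by omega, hsw', hrot'] at h1
    exact h1
  -- the arc recursion
  set u : Pat (N + 2) → ℂ := i0 N (vec Φ N z) with hu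
  have harc : ∀ P, (F0 P).eval (Polynomial.C (κ ^ 2) * Polynomial.X) =
      Polynomial.C (-κ / 3 ^ N * u P) * (Polynomial.X *
        ∏ j ∈ range N, (Polynomial.C (z j) - Polynomial.C κ * Polynomial.X) ^ 2) := by
    intro P
    apply Polynomial.funext
    intro w
    rw [eval_eval, evF0]
    have h1 := congrFun (h.arc_vec hN w z) P
    change Φ (N + 2) P (scons (κ ^ 2 * w) (scons w z)) = _ at h1
    rw [h1]
    simp only [Pi.smul_apply, smul_eq_mul, Polynomial.eval_mul, Polynomial.eval_C,
      Polynomial.eval_X, Polynomial.eval_prod, Polynomial.eval_pow, Polynomial.eval_sub]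
    ring
  have hcoef : ∀ P m, ∑ a ∈ range (N + 1 + 1), (κ ^ 2) ^ a *
      (if a ≤ m + 1 then cf a (m + 1 - a) (F0 P) else 0) = -κ / 3 ^ N * u P *
        (∏ j ∈ range N, (Polynomial.C (z j) - Polynomial.C κ * Polynomial.X) ^ 2).coeff m := by
    intro P m
    rw [← coeff_eval (deg0 P), harc, Polynomial.coeff_C_mul, Polynomial.coeff_X_mul]
  obtain ⟨pd1, pd2⟩ := prod_deg κ N z
  have hcf0 : ∀ P a b, N + 1 < b → cf a b (F0 P) = 0 := by
    intro P a b hb
    exact Polynomial.coeff_eq_zero_of_natDegree_lt (lt_of_le_of_lt (deg1 P a) hb)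
  -- the coefficient `D`
  have hD : cfv (N + 1) (N + 1) F0 = 0 := by
    funext P
    have h1 := hcoef P (2 * N + 1)
    rw [Polynomial.coeff_eq_zero_of_natDegree_lt (lt_of_le_of_lt pd1 (by omega)), mul_zero,
      sum_range_succ, sum_eq_zero, zero_add, if_pos (by omega),
      show 2 * N + 1 + 1 - (N + 1) = N + 1 by omega] at h1
    · rcases mul_eq_zero.mp h1 with h2 | h2
      · exact absurd h2 (pow_ne_zero _ (pow_ne_zero _ hk0))
      · exact h2
    · intro a ha
      have ha' := mem_range.mp ha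
      rw [if_pos (by omega), hcf0 P a _ (by omega), mul_zero]
  -- the sum rule
  have hsum : κ ^ 2 • cfv (N + 1) N F0 + cfv N (N + 1) F0 = (-κ / 3 ^ N) • u := by
    funext P
    have h1 := hcoef P (N * 2)
    rw [pd2, sum_range_succ, sum_range_succ, sum_eq_zero, zero_add, if_pos (by omega),
      if_pos (by omega), show N * 2 + 1 - (N + 1) = N by omega,
      show N * 2 + 1 - N = N + 1 by omega] at h1
    · have h2 : (κ ^ 2) ^ N ≠ 0 := pow_ne_zero _ (pow_ne_zero _ hk0)
      apply mul_left_cancel₀ h2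
      simp only [Pi.add_apply, Pi.smul_apply, smul_eq_mul]
      change (κ ^ 2) ^ N * (κ ^ 2 * cf (N + 1) N (F0 P) + cf N (N + 1) (F0 P)) = _
      rw [pow_succ] at h1
      linear_combination h1
    · intro a ha
      have ha' := mem_range.mp ha
      rw [if_pos (by omega), hcf0 P a _ (by omega), mul_zero]
  -- vanishing of the coefficients
  have hz1 : ∀ b k, 1 ≤ k → k ≤ N + 1 → cfv (N + 1 + 1) b (Fk k) = 0 := by
    intro b k h1 h2
    funext P
    change ((Fk k P).coeff (N + 1 + 1)).coeff b = 0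
    rw [Polynomial.coeff_eq_zero_of_natDegree_lt (lt_of_le_of_lt (degk k h1 h2 P) (by omega))]
    simp
  have hz2 : ∀ k, 1 ≤ k → k ≤ N + 1 → cfv (N + 1) (N + 1) (Fk k) = 0 := by
    intro k h1 h2
    have h3 := hmove (N + 1) (N + 1) (hz1 _) (N + 1 - k) (by omega)
    rw [show N + 1 - (N + 1 - k) = k by omega, hrot', hD, map_zero, map_zero] at h3
    exact h3
  have hC1 : cfv N (N + 1) F0 = Sop κ N (cfv (N + 1) N F0) := hmove' (N + 1) N (hz1 _)
  have hC0 : cfv (N + 1) N F0 = Sop κ N (cfv N (N + 1) F0) := hmove' N (N + 1) hz2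
  -- symmetry after applying `e_0`
  have hsym : eL (N + 2) 0 (cfv (N + 1) N F0) = eL (N + 2) 0 (cfv N (N + 1) F0) := by
    have h1 : ∀ P, eB 0 (Fk 1) P = eB 0 F0 P := by
      intro P
      have h2 : (Polynomial.C (Polynomial.C κ) * Polynomial.C Polynomial.X -
          Polynomial.C (Polynomial.C (κ ^ 2)) * Polynomial.X) *
          (eB 0 (Fk 1) P - eB 0 F0 P) = 0 := by
        apply bv_zero
        intro x y
        have h3 := h.exch_vec (N + 2) (scons x (scons y z)) 0 (by omega)
        rw [zero_add, scons_swap01] at h3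
        have h4 := congrArg (fun v => eL (N + 2) 0 v P) h3
        simp only [map_add, map_smul] at h4
        have e0 : (((0 : ℕ) : ℤ)) = 0 := rfl
        rw [e0, eL_idem] at h4
        simp only [Pi.add_apply, Pi.smul_apply, smul_eq_mul, scons] at h4
        rw [map_mul, map_sub, map_sub, map_mul, map_mul, ev_CC, ev_CC, ev_CX, ev_X, ev_eB, ev_eB]
        have e1 : (fun P' => ev x y (Fk 1 P')) = vec Φ (N + 2) (scons y (scons x z)) := by
          funext P'
          rw [evFk, ar_one]
          rfl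
        have e2 : (fun P' => ev x y (F0 P')) = vec Φ (N + 2) (scons x (scons y z)) := by
          funext P'
          rw [evF0]
          rfl
        rw [e1, e2]
        linear_combination h4 + (x - y) *
          (eL (N + 2) 0 (vec Φ (N + 2) (scons x (scons y z))) P) * hk
      rcases mul_eq_zero.mp h2 with h3 | h3
      · exfalso
        have h4 := congrArg (ev 0 1) h3
        rw [map_sub, map_mul, map_mul, ev_CC, ev_CC, ev_CX, ev_X, map_zero] at h4
        apply hk0
        linear_combination h4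
      · exact sub_eq_zero.mp h3
    funext P
    rw [← cf_eB, ← h1 P, cf_eB, hsw']
  refine ⟨F0, evF0, deg0, ?_, ?_, ?_⟩
  · intro P
    rw [Polynomial.natDegree_le_iff_coeff_eq_zero]
    intro b hb
    rcases Nat.lt_or_ge (N + 1) b with h1 | h1
    · exact hcf0 P _ _ h1
    · have : b = N + 1 := by omega
      rw [this]
      exact congrFun hD P
  · have h1 : (-κ / 3 ^ N) • Sop κ N u = κ ^ 2 • cfv N (N + 1) F0 + cfv (N + 1) N F0 := by
      rw [← map_smul, ← hsum, map_add, map_smul, ← hC1, ← hC0]
    rw [smul_sub, h1, smul_comm, ← hsum]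
    funext P
    simp only [Pi.add_apply, Pi.sub_apply, Pi.smul_apply, smul_eq_mul]
    linear_combination (-(κ * cfv (N + 1) N F0 P)) * hk3
  · have h1 : (-κ / 3 ^ N) • Sop κ N u = κ ^ 2 • cfv N (N + 1) F0 + cfv (N + 1) N F0 := by
      rw [← map_smul, ← hsum, map_add, map_smul, ← hC1, ← hC0]
    have h2 := congrArg (eL (N + 2) 0) h1
    have h3 := congrArg (eL (N + 2) 0) hsum
    rw [map_smul, eL_i0, map_add, map_smul, hsym] at h3
    rw [map_smul, map_add, map_smul, hsym, h3] at h2
    have h4 : (-κ / 3 ^ N : ℂ) ≠ 0 :=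
      div_ne_zero (neg_ne_zero.mpr hk0) (pow_ne_zero _ (by norm_num))
    exact smul_right_injective _ h4 h2

end

end Pool.Agent.H15.Exact
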