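import Pool.Agent.H15.Exact.Top

/-!
# Project EXACT, one-arm formula: the top coefficient of the pairing
-/

set_option autoImplicit false

open Finset

namespace Pool.Agent.H15.Exact

open H56.EX
open scoped Classical

variable {κ τ : ℂ} {Φ Φ' : ∀ L : ℕ, Pat L → (ℕ → ℂ) → ℂ} {W : ∀ L : ℕ, Pat L → Pat L → ℂ}

theorem chn_adj (hk : κ ^ 2 + κ + 1 = 0) {N : ℕ} {V : Pat (N + 2) → Pat (N + 2) → ℂ}
    (hadj : ∀ i : ℤ, 0 ≤ i → i + 1 < (N + 2 : ℕ) → ∀ P Q, V (E i P) Q = V P (E i Q))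
    (a b : Pat (N + 2) → ℂ) : ∀ m, m ≤ N →
    bf V (chn (κ ^ 2) (N + 2) N m a) (chn κ (N + 2) N m b) = bf V a b := by
  intro m
  induction m with
  | zero =>
    intro _
    rfl
  | succ m ih =>
    intro hm
    rw [← ih (by omega)]
    change bf V (tb (κ ^ 2) (N + 2) ((N - m : ℕ) : ℤ) (chn (κ ^ 2) (N + 2) N m a))
      (tb κ (N + 2) ((N - m : ℕ) : ℤ) (chn κ (N + 2) N m b)) = _
    set a' := chn (κ ^ 2) (N + 2) N m a
    set b' := chn κ (N + 2) N m b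
    set i : ℤ := ((N - m : ℕ) : ℤ) with hi
    have hadj' : ∀ c d : Pat (N + 2) → ℂ, bf V (eL (N + 2) i c) d = bf V c (eL (N + 2) i d) :=
      fun c d => bf_eL (fun P Q => hadj i (by omega) (by omega) P Q) c d
    rw [tb_apply, tb_apply]
    simp only [map_neg, map_add, map_smul, LinearMap.add_apply, LinearMap.neg_apply,
      LinearMap.smul_apply, smul_eq_mul, hadj', eL_idem, neg_add_rev]
    have hk3 : κ ^ 3 = 1 := by linear_combination (κ - 1) * hk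
    linear_combination (bf V a' b' + (1 + κ + κ ^ 2 + κ ^ 3) * bf V a' (eL (N + 2) i b')) * hk3 +
      bf V a' (eL (N + 2) i b') * hk

theorem top_form (h : QP κ Φ) (hW : FormProps τ W) {N : ℕ} (z : ℕ → ℂ)
    {C C' : Pat (N + 2) → ℂ}
    (e1 : (κ - 1) • C = (-κ / 3 ^ N) • (κ ^ 2 • i0 N (vec Φ N z) -
        Sop κ N (i0 N (vec Φ N z))))
    (e2 : eL (N + 2) 0 (Sop κ N (i0 N (vec Φ N z))) = i0 N (vec Φ N z))
    (e1' : (κ ^ 2 - 1) • C' = (-κ ^ 2 / 3 ^ N) • ((κ ^ 2) ^ 2 • i0 N (vec Φ' N z) -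
        Sop (κ ^ 2) N (i0 N (vec Φ' N z))))
    (e2' : eL (N + 2) 0 (Sop (κ ^ 2) N (i0 N (vec Φ' N z))) = i0 N (vec Φ' N z)) :
    bf (W (N + 2)) C' C = (τ + 2) / (3 * 9 ^ N) * Gv W Φ' Φ N z := by
  have hk := h.kk
  have hk3 := h.cube
  have hk4 : κ ^ 4 = κ := by linear_combination κ * hk3
  set B := bf (W (N + 2)) with hB
  set u := i0 N (vec Φ N z) with hu
  set u' := i0 N (vec Φ' N z) with hu'
  set v := Sop κ N u with hv
  set v' := Sop (κ ^ 2) N u' with hv'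
  have hadj : ∀ i : ℤ, 0 ≤ i → i + 1 < (N + 2 : ℕ) → ∀ P Q : Pat (N + 2),
      W (N + 2) (E i P) Q = W (N + 2) P (E i Q) := fun i h0 h1 P Q => hW.adj (N + 2) i h0 h1 P Q
  have hadj0 : ∀ c d : Pat (N + 2) → ℂ, B (eL (N + 2) 0 c) d = B c (eL (N + 2) 0 d) :=
    fun c d => bf_eL (fun P Q => hadj 0 (by omega) (by omega) P Q) c d
  have g1 : B u' u = Gv W Φ' Φ N z := bf_i0 hW _ _
  have g2 : B v' v = τ * Gv W Φ' Φ N z := by
    have h1 : B v' v = B (rI (N + 2) u') (rI (N + 2) u) :=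
      chn_adj hk hadj _ _ N le_rfl
    rw [h1]
    exact bf_rI_i0 hW _ _
  have g3 : B u' v = Gv W Φ' Φ N z := by
    rw [← g1]
    conv_lhs => rw [hu', ← eL_i0, hadj0, e2]
  have g4 : B v' u = Gv W Φ' Φ N z := by
    rw [← g1]
    conv_lhs => rw [hu, ← eL_i0, ← hadj0, e2']
  have h2 := congrArg₂ (fun a b => B a b) e1' e1
  simp only [map_sub, map_smul, LinearMap.sub_apply, LinearMap.smul_apply, smul_eq_mul, g1, g2,
    g3, g4] at h2
  have h9 : (9 : ℂ) ^ N = 3 ^ N * 3 ^ N := by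
    rw [← mul_pow]; norm_num
  obtain ⟨t, ht⟩ : ∃ t : ℂ, t = (3 ^ N)⁻¹ := ⟨_, rfl⟩
  rw [h9]
  simp only [div_eq_mul_inv, mul_inv, ← ht] at h2 ⊢
  linear_combination (1 / 3) * h2 - (1 / 3) * B C' C * (hk3 - hk) +
    (1 / 3) * t ^ 2 * Gv W Φ' Φ N z *
      ((τ + κ ^ 6 + κ ^ 3 + 1 - κ ^ 4 - κ - κ ^ 2) * hk3 - hk)

/-- The top coefficient of the pairing. -/
theorem G_top (h : QP κ Φ) (h' : QP (κ ^ 2) Φ') (hW : FormProps τ W) {N : ℕ} (hN : 2 ≤ N)
    (z : ℕ → ℂ) : ∃ p : BV,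
      (∀ x y, ev x y p = Gv W Φ' Φ (N + 2) (scons x (scons y z))) ∧
      p.natDegree ≤ 2 * (N + 1) ∧ (p.coeff (2 * (N + 1))).natDegree ≤ 2 * N ∧
      (p.coeff (2 * (N + 1))).coeff (2 * N) = (τ + 2) / (3 * 9 ^ N) * Gv W Φ' Φ N z := by
  obtain ⟨F, hF1, hF2, hF3, hF4, hF5⟩ := h.top hN z
  obtain ⟨F', hF1', hF2', hF3', hF4', hF5'⟩ := h'.top hN z
  have hc : ∀ P Q, (Polynomial.C (Polynomial.C (W (N + 2) P Q)) * (F' P * F Q)).coeff
      (2 * (N + 1)) = Polynomial.C (W (N + 2) P Q) *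
        ((F' P).coeff (N + 1) * (F Q).coeff (N + 1)) := by
    intro P Q
    rw [Polynomial.coeff_C_mul, two_mul,
      Polynomial.coeff_mul_add_eq_of_natDegree_le (hF2' P) (hF2 Q)]
  have hc2 : ∀ P Q, (Polynomial.C (W (N + 2) P Q) *
      ((F' P).coeff (N + 1) * (F Q).coeff (N + 1))).coeff (2 * N) =
        W (N + 2) P Q * (cfv (N + 1) N F' P * cfv (N + 1) N F Q) := by
    intro P Q
    rw [Polynomial.coeff_C_mul, two_mul,
      Polynomial.coeff_mul_add_eq_of_natDegree_le (hF3' P) (hF3 Q)]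
    rfl
  refine ⟨∑ P, ∑ Q, Polynomial.C (Polynomial.C (W (N + 2) P Q)) * (F' P * F Q), ?_, ?_, ?_, ?_⟩
  · intro x y
    unfold Gv
    rw [bf_apply, map_sum]
    refine sum_congr rfl fun P _ => ?_
    rw [map_sum]
    refine sum_congr rfl fun Q _ => ?_
    rw [map_mul, map_mul, ev_CC, hF1, hF1']
    rfl
  · apply Polynomial.natDegree_sum_le_of_forall_le
    intro P _
    apply Polynomial.natDegree_sum_le_of_forall_le
    intro Q _
    refine (Polynomial.natDegree_C_mul_le _ _).trans (Polynomial.natDegree_mul_le.trans ?_)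
    have := hF2 Q
    have := hF2' P
    omega
  · rw [Polynomial.finsetSum_coeff]
    apply Polynomial.natDegree_sum_le_of_forall_le
    intro P _
    rw [Polynomial.finsetSum_coeff]
    apply Polynomial.natDegree_sum_le_of_forall_le
    intro Q _
    rw [hc]
    refine (Polynomial.natDegree_C_mul_le _ _).trans (Polynomial.natDegree_mul_le.trans ?_)
    have := hF3 Q
    have := hF3' P
    omega
  · have h1 := top_form h hW z hF4 hF5 hF4' hF5'
    rw [← h1, bf_apply, Polynomial.finsetSum_coeff, Polynomial.finsetSum_coeff]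
    refine sum_congr rfl fun P _ => ?_
    rw [Polynomial.finsetSum_coeff, Polynomial.finsetSum_coeff]
    refine sum_congr rfl fun Q _ => ?_
    rw [hc, hc2]

end Pool.Agent.H15.Exact
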