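import Pool.Agent.H15.Exact.TopG

/-!
# Project EXACT, one-arm formula: two strands
-/

set_option autoImplicit false

open Finset

namespace Pool.Agent.H15.Exact

open H56.EX
open scoped Classical

/-- the pattern joining `0` and `1` -/
def patA : Pat 2 where
  m := fun x => if x % 2 = 0 then x + 1 else x - 1
  inv := fun x => by
    show (if (if x % 2 = 0 then x + 1 else x - 1) % 2 = 0 then
      (if x % 2 = 0 then x + 1 else x - 1) + 1 else (if x % 2 = 0 then x + 1 else x - 1) - 1) = x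
    split_ifs <;> omega
  per := fun x => by
    show (if (x + ((2 : ℕ) : ℤ)) % 2 = 0 then (x + ((2 : ℕ) : ℤ)) + 1 else
      (x + ((2 : ℕ) : ℤ)) - 1) = (if x % 2 = 0 then x + 1 else x - 1) + ((2 : ℕ) : ℤ)
    split_ifs <;> omega
  ne := fun x => by
    show (if x % 2 = 0 then x + 1 else x - 1) ≠ x
    split_ifs <;> omega
  short := fun x => by
    show |(if x % 2 = 0 then x + 1 else x - 1) - x| < ((2 : ℕ) : ℤ)
    split_ifs
    · rw [show x + 1 - x = 1 by ring]; norm_num
    · rw [show x - 1 - x = -1 by ring]; norm_num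
  nc := fun x y h1 h2 => by
    exfalso
    change y < (if x % 2 = 0 then x + 1 else x - 1) at h2
    split_ifs at h2 <;> omega

/-- the pattern joining `-1` and `0` -/
def patB : Pat 2 := rot patA

theorem patA_zero : patA.m 0 = 1 := rfl

theorem patB_zero : patB.m 0 = -1 := rfl

theorem two_cases (P : Pat 2) : P.m 0 = 1 ∨ P.m 0 = -1 := by
  have h1 := P.short 0
  have h2 := P.ne 0
  rw [sub_zero, abs_lt] at h1
  obtain ⟨h3, h4⟩ := h1
  push_cast at h3 h4
  omega

theorem two_one {P : Pat 2} (h : P.m 0 = 1) : P.m 1 = 0 := by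
  rw [← h, P.inv]

theorem two_one' {P : Pat 2} (h : P.m 0 = -1) : P.m 1 = 2 := by
  have h1 : P.m (-1) = 0 := m_neg_one_of h
  have h2 := P.per (-1)
  rw [h1] at h2
  norm_num at h2
  exact h2

theorem eq_patA {P : Pat 2} (h : P.m 0 = 1) : P = patA := by
  apply Pat.ext_Ico
  intro x h0 h1
  have hx : x = 0 ∨ x = 1 := by push_cast at h1; omega
  rcases hx with rfl | rfl
  · rw [h, patA_zero]
  · rw [two_one h, two_one patA_zero]

theorem eq_patB {P : Pat 2} (h : P.m 0 = -1) : P = patB := by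
  apply Pat.ext_Ico
  intro x h0 h1
  have hx : x = 0 ∨ x = 1 := by push_cast at h1; omega
  rcases hx with rfl | rfl
  · rw [h, patB_zero]
  · rw [two_one' h, two_one' patB_zero]

theorem patA_ne : patA ≠ patB := by
  intro h
  have := congrArg (fun P : Pat 2 => P.m 0) h
  simp only [patA_zero, patB_zero] at this
  norm_num at this

theorem sum_two (f : Pat 2 → ℂ) : ∑ P, f P = f patA + f patB := by
  have h : (univ : Finset (Pat 2)) = {patA, patB} := by
    ext P
    simp only [mem_univ, mem_insert, mem_singleton, true_iff]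
    rcases two_cases P with h | h
    · left; exact eq_patA h
    · right; exact eq_patB h
  rw [h, sum_pair patA_ne]

variable {κ τ : ℂ} {Φ Φ' : ∀ L : ℕ, Pat L → (ℕ → ℂ) → ℂ} {W : ∀ L : ℕ, Pat L → Pat L → ℂ}

theorem Gv_two (h : QP κ Φ) (h' : QP (κ ^ 2) Φ') (hW : FormProps τ W) (s : ℕ → ℂ) :
    Gv W Φ' Φ 2 s = (s 0 + s 1) ^ 2 + (τ - 1) * (s 0 ^ 2 + s 0 * s 1 + s 1 ^ 2) / 3 := by
  have hk := h.kk
  have hk3 := h.cube
  have hk4 : κ ^ 4 = κ := by linear_combination κ * hk3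
  have hne : κ - κ ^ 2 ≠ 0 := by
    intro h0
    have : κ * (1 - κ) = 0 := by linear_combination h0
    rcases mul_eq_zero.mp this with h1 | h1
    · exact h.ne_zero h1
    · exact h.ne_one (by linear_combination -h1)
  have hd : (κ - κ ^ 2) ^ 2 = -3 := by linear_combination (κ ^ 2 - 3 * κ + 3) * hk
  unfold Gv
  rw [bf_apply, sum_two, sum_two, sum_two]
  rw [hW.two_left _ _ patA_zero, hW.two_left _ _ patA_zero, hW.two_right _ _ patA_zero,
    hW.two_base _ _ patB_zero patB_zero]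
  unfold vec
  rw [h.two_other _ s patA_zero, h.two_base _ s patB_zero, h'.two_other _ s patA_zero,
    h'.two_base _ s patB_zero]
  have e1 : (κ ^ 2) ^ 2 = κ := by rw [← pow_mul]; exact hk4
  rw [e1]
  set x := s 0
  set y := s 1
  have e2 : (κ ^ 2 * x - κ * y) / (κ ^ 2 - κ) = (κ * y - κ ^ 2 * x) / (κ - κ ^ 2) := by
    rw [← neg_div_neg_eq]
    congr 1 <;> ring
  have e3 : (κ ^ 2 * y - κ * x) / (κ ^ 2 - κ) = (κ * x - κ ^ 2 * y) / (κ - κ ^ 2) := by
    rw [← neg_div_neg_eq]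
    congr 1 <;> ring
  have e4 : (κ * x - κ ^ 2 * y) / (κ - κ ^ 2) + (κ * y - κ ^ 2 * x) / (κ - κ ^ 2) = x + y := by
    rw [← add_div, div_eq_iff hne]
    ring
  have e5 : (κ * x - κ ^ 2 * y) / (κ - κ ^ 2) * ((κ * y - κ ^ 2 * x) / (κ - κ ^ 2)) =
      (x ^ 2 + x * y + y ^ 2) / 3 := by
    rw [div_mul_div_comm, ← sq, hd]
    have : (κ * x - κ ^ 2 * y) * (κ * y - κ ^ 2 * x) = -(x ^ 2 + x * y + y ^ 2) := by
      linear_combination (x * y * (κ ^ 2 - κ + 1) - (κ - 1) * (x ^ 2 + y ^ 2)) * hk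
    rw [this, neg_div_neg_eq]
  rw [e2, e3]
  set A := (κ * x - κ ^ 2 * y) / (κ - κ ^ 2)
  set B := (κ * y - κ ^ 2 * x) / (κ - κ ^ 2)
  rw [← e4]
  linear_combination (τ - 1) * e5

end Pool.Agent.H15.Exact
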